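import Mathlib

/-!
Critical random-cluster (FK) model on finite domains of the square lattice.
-/

namespace Pool.Agent.H95.SumRule

/-- The domain under the roof `h`: columns `0, …, m`, and heights `0, …, h i` in column `i`. -/
noncomputable def domain (m : ℕ) (h : ℤ → ℕ) : Finset (ℤ × ℤ) :=
  (Finset.Icc (0 : ℤ) m).biUnion fun i => (Finset.Icc (0 : ℤ) (h i)).image fun j => (i, j)

/-- The nearest-neighbour edges of the square lattice with both endpoints in `V`. -/
noncomputable def edgesIn (V : Finset (ℤ × ℤ)) : Finset (Sym2 (ℤ × ℤ)) :=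
  (V.filter fun v => v + (1, 0) ∈ V).image (fun v => s(v, v + (1, 0))) ∪
  (V.filter fun v => v + (0, 1) ∈ V).image (fun v => s(v, v + (0, 1)))

/-- The edges of the bottom segment from `(a, 0)` to `(b, 0)`. -/
noncomputable def bottomArc (a b : ℤ) : Finset (Sym2 (ℤ × ℤ)) :=
  (Finset.Ico a b).image fun i => s((i, 0), (i + 1, 0))

/-- The graph of open edges of a configuration. -/
noncomputable def openGraph (ω : Finset (Sym2 (ℤ × ℤ))) : SimpleGraph (ℤ × ℤ) :=
  SimpleGraph.fromEdgeSet (ω : Set (Sym2 (ℤ × ℤ)))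

/-- Number of connected components of `(V, ω)`. -/
noncomputable def clusters (V : Finset (ℤ × ℤ)) (ω : Finset (Sym2 (ℤ × ℤ))) : ℕ :=
  Set.ncard {C : (openGraph ω).ConnectedComponent | ∃ v ∈ V, (openGraph ω).connectedComponentMk v = C}

/-- FK weight `(p / (1 - p)) ^ |ω| * q ^ c(ω)`. -/
noncomputable def fkWeight (p q : ℝ) (V : Finset (ℤ × ℤ)) (ω : Finset (Sym2 (ℤ × ℤ))) : ℝ :=
  (p / (1 - p)) ^ ω.card * q ^ clusters V ω

/-- Configurations on `V` in which all edges of the wired arc `O` are open. -/
noncomputable def configs (V : Finset (ℤ × ℤ)) (O : Finset (Sym2 (ℤ × ℤ))) : Finset (Finset (Sym2 (ℤ × ℤ))) :=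
  (edgesIn V).powerset.filter fun ω => O ⊆ ω

open Classical in
/-- FK probability of the event `A`. -/
noncomputable def fkProb (p q : ℝ) (V : Finset (ℤ × ℤ)) (O : Finset (Sym2 (ℤ × ℤ)))
    (A : Finset (Sym2 (ℤ × ℤ)) → Prop) : ℝ :=
  (∑ ω ∈ (configs V O).filter A, fkWeight p q V ω) / ∑ ω ∈ configs V O, fkWeight p q V ω

/-- The self-dual point of the square lattice. -/
noncomputable def selfDual (q : ℝ) : ℝ := √q / (1 + √q)

/-- Dobrushin boundary conditions on the domain under the roof `h`: the bottom arc from `(a, 0)` to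
`(b, 0)` is wired, everything else is free. `touchProb` is the probability, at the self-dual
point, that the vertex `x` is connected to the wired arc. -/
noncomputable def touchProb (q : ℝ) (m : ℕ) (h : ℤ → ℕ) (a b : ℤ) (x : ℤ × ℤ) : ℝ :=
  fkProb (selfDual q) q (domain m h) (bottomArc a b)
    fun ω => (openGraph ω).Reachable (b, 0) x

/-- The probability, at the self-dual point, that the wired edge from `(i, 0)` to `(i + 1, 0)` is
a bridge: its endpoints are not connected once this edge is removed. -/
noncomputable def bridgeProb (q : ℝ) (m : ℕ) (h : ℤ → ℕ) (a b i : ℤ) : ℝ :=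
  fkProb (selfDual q) q (domain m h) (bottomArc a b)
    fun ω => ¬ (openGraph (ω.erase s((i, 0), (i + 1, 0)))).Reachable (i, 0) (i + 1, 0)

end Pool.Agent.H95.SumRule
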