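import Mathlib

namespace Pool.Agent.H95.SumRule

/-- octant index of a nonzero integer vector -/
def oct (v : ℤ × ℤ) : ℤ :=
  if 0 < v.1 then (if 0 < v.2 then 1 else if v.2 = 0 then 0 else 7)
  else if v.1 = 0 then (if 0 < v.2 then 2 else 6)
  else (if 0 < v.2 then 3 else if v.2 = 0 then 4 else 5)

def IsUnit2 (u : ℤ × ℤ) : Prop :=
  (u.1 = 1 ∧ u.2 = 0) ∨ (u.1 = 0 ∧ u.2 = 1) ∨ (u.1 = -1 ∧ u.2 = 0) ∨ (u.1 = 0 ∧ u.2 = -1)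

lemma isUnit2_neg {u : ℤ × ℤ} (h : IsUnit2 u) : IsUnit2 (-u) := by
  unfold IsUnit2 at *
  simp only [Prod.fst_neg, Prod.snd_neg]
  omega

lemma unit_ne {u : ℤ × ℤ} (h : IsUnit2 u) : ¬ (u.1 = 0 ∧ u.2 = 0) := by
  unfold IsUnit2 at h; omega

end Pool.Agent.H95.SumRule
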