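import Mathlib
import Pool.Agent.H95.SumRule.Unit

namespace Pool.Agent.H95.SumRule

open Function Finset

inductive Dir
  | E | N | W | S
deriving DecidableEq

namespace Dir

def vec : Dir → ℤ × ℤ
  | E => (1, 0)
  | N => (0, 1)
  | W => (-1, 0)
  | S => (0, -1)

def lft : Dir → Dir
  | E => N
  | N => W
  | W => S
  | S => E

def rgt : Dir → Dir
  | E => S
  | N => E
  | W => N
  | S => W

def opp : Dir → Dir
  | E => W
  | N => S
  | W => E
  | S => N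

def ang : Dir → ℤ
  | E => 1
  | N => 3
  | W => 5
  | S => 7

end Dir

abbrev Corner := (ℤ × ℤ) × Dir

/-- the tile (lattice edge) at the head of the corner -/
def head (c : Corner) : Sym2 (ℤ × ℤ) := s(c.1, c.1 + c.2.vec)

def nxt (ω : Finset (Sym2 (ℤ × ℤ))) (c : Corner) : Corner :=
  if head c ∈ ω then (c.1 + c.2.vec, c.2.rgt) else (c.1, c.2.lft)

def eps (ω : Finset (Sym2 (ℤ × ℤ))) (c : Corner) : ℤ := if head c ∈ ω then -1 else 1

def off : Dir → ℤ × ℤ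
  | Dir.E => (1, 0)
  | Dir.N => (1, 1)
  | Dir.W => (0, 1)
  | Dir.S => (0, 0)

def pos (c : Corner) : ℤ × ℤ := (2 * c.1.1 + (off c.2).1, 2 * c.1.2 + (off c.2).2)

lemma eps_cases (ω : Finset (Sym2 (ℤ × ℤ))) (c : Corner) : eps ω c = 1 ∨ eps ω c = -1 := by
  unfold eps; split_ifs <;> simp

/-- the in-corner on the other side of the same tile -/
def mate (c : Corner) : Corner := (c.1 + c.2.vec, c.2.opp)

lemma mate_mate (c : Corner) : mate (mate c) = c := by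
  obtain ⟨⟨a, b⟩, d⟩ := c
  cases d <;> simp [mate, Dir.vec, Dir.opp]

lemma head_mate (c : Corner) : head (mate c) = head c := by
  obtain ⟨⟨a, b⟩, d⟩ := c
  cases d <;> simp [head, mate, Dir.vec, Dir.opp, Sym2.eq_swap]

lemma mate_ne (c : Corner) : mate c ≠ c := by
  obtain ⟨⟨a, b⟩, d⟩ := c
  cases d <;> simp [mate, Dir.vec, Dir.opp]

lemma head_eq_iff (c c' : Corner) : head c = head c' ↔ c' = c ∨ c' = mate c := by
  obtain ⟨⟨a, b⟩, d⟩ := c
  obtain ⟨⟨a', b'⟩, d'⟩ := c'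
  cases d <;> cases d' <;>
    simp [head, mate, Dir.vec, Dir.opp] <;> omega

lemma nxt_mem {ω : Finset (Sym2 (ℤ × ℤ))} {c : Corner} (h : head c ∈ ω) :
    nxt ω c = (c.1 + c.2.vec, c.2.rgt) := by simp [nxt, h]

lemma nxt_not_mem {ω : Finset (Sym2 (ℤ × ℤ))} {c : Corner} (h : head c ∉ ω) :
    nxt ω c = (c.1, c.2.lft) := by simp [nxt, h]

lemma nxt_injective (ω : Finset (Sym2 (ℤ × ℤ))) : Injective (nxt ω) := by
  intro c c' h
  by_cases h1 : head c ∈ ω <;> by_cases h2 : head c' ∈ ω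
  · rw [nxt_mem h1, nxt_mem h2] at h
    obtain ⟨⟨a, b⟩, d⟩ := c
    obtain ⟨⟨a', b'⟩, d'⟩ := c'
    cases d <;> cases d' <;> simp [Dir.vec, Dir.rgt] at h ⊢ <;> omega
  · rw [nxt_mem h1, nxt_not_mem h2] at h
    exfalso
    apply h2
    have : c' = mate c := by
      obtain ⟨⟨a, b⟩, d⟩ := c
      obtain ⟨⟨a', b'⟩, d'⟩ := c'
      cases d <;> cases d' <;> simp [Dir.vec, Dir.rgt, Dir.lft, mate, Dir.opp] at h ⊢ <;> omega
    rw [this, head_mate]; exact h1
  · rw [nxt_not_mem h1, nxt_mem h2] at h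
    exfalso
    apply h1
    have : c = mate c' := by
      obtain ⟨⟨a, b⟩, d⟩ := c
      obtain ⟨⟨a', b'⟩, d'⟩ := c'
      cases d <;> cases d' <;> simp [Dir.vec, Dir.rgt, Dir.lft, mate, Dir.opp] at h ⊢ <;> omega
    rw [this, head_mate]; exact h2
  · rw [nxt_not_mem h1, nxt_not_mem h2] at h
    obtain ⟨⟨a, b⟩, d⟩ := c
    obtain ⟨⟨a', b'⟩, d'⟩ := c'
    cases d <;> cases d' <;> simp [Dir.lft] at h ⊢ <;> omega

lemma pos_injective : Injective pos := by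
  intro c c' h
  obtain ⟨⟨a, b⟩, d⟩ := c
  obtain ⟨⟨a', b'⟩, d'⟩ := c'
  cases d <;> cases d' <;> simp [pos, off] at h ⊢ <;> omega

lemma pos_step (ω : Finset (Sym2 (ℤ × ℤ))) (c : Corner) :
    IsUnit2 (pos (nxt ω c) - pos c) ∧
      (oct (pos (nxt ω c) - pos c) - c.2.ang - eps ω c) % 8 = 0 ∧
      (((nxt ω c).2.ang - c.2.ang - 2 * eps ω c) % 8 = 0) := by
  by_cases h : head c ∈ ω
  · rw [nxt_mem h]
    have e1 : eps ω c = -1 := by simp [eps, h]
    rw [e1]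
    obtain ⟨⟨a, b⟩, d⟩ := c
    cases d <;> simp [pos, off, Dir.vec, Dir.rgt, Dir.ang, IsUnit2, oct] <;> ring_nf <;> norm_num
  · rw [nxt_not_mem h]
    have e1 : eps ω c = 1 := by simp [eps, h]
    rw [e1]
    obtain ⟨⟨a, b⟩, d⟩ := c
    cases d <;> simp [pos, off, Dir.lft, Dir.ang, IsUnit2, oct]

end Pool.Agent.H95.SumRule
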