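import Mathlib

namespace Pool.Agent.H95.SumRule

open Function Finset

variable {α : Type*} [DecidableEq α]

/-- `c0` lies on a cycle of `f` of length exactly `T` -/
structure Cyc (f : α → α) (c0 : α) (T : ℕ) : Prop where
  pos : 0 < T
  ret : f^[T] c0 = c0
  min : ∀ n, 0 < n → n < T → f^[n] c0 ≠ c0

omit [DecidableEq α] in
lemma Cyc.inj {f : α → α} {c0 : α} {T : ℕ} (hf : Injective f) (h : Cyc f c0 T) {m n : ℕ}
    (hm : m < T) (hn : n < T) (e : f^[m] c0 = f^[n] c0) : m = n := by
  rcases lt_trichotomy m n with hlt | heq | hgt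
  · exfalso
    have := iterate_cancel hf e.symm
    exact h.min (n - m) (by omega) (by omega) this
  · exact heq
  · exfalso
    have := iterate_cancel hf e
    exact h.min (m - n) (by omega) (by omega) this

omit [DecidableEq α] in
lemma Cyc.unique {f : α → α} {c0 : α} {T T' : ℕ} (h : Cyc f c0 T) (h' : Cyc f c0 T') : T = T' := by
  rcases lt_trichotomy T T' with hlt | heq | hgt
  · exact absurd h.ret (h'.min T h.pos hlt)
  · exact heq
  · exact absurd h'.ret (h.min T' h'.pos hgt)

omit [DecidableEq α] in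
lemma Cyc.mod {f : α → α} {c0 : α} {T : ℕ} (h : Cyc f c0 T) (n : ℕ) :
    f^[n] c0 = f^[n % T] c0 := by
  have h1 : ∀ k m, f^[m + T * k] c0 = f^[m] c0 := by
    intro k
    induction k with
    | zero => intro m; simp
    | succ k ih =>
      intro m
      rw [Nat.mul_succ, ← Nat.add_assoc, iterate_add_apply, h.ret, ih]
  conv_lhs => rw [← Nat.mod_add_div n T]
  exact h1 _ _

omit [DecidableEq α] in
lemma exists_cyc_of_finite {f : α → α} (hf : Injective f) {c0 : α} {K : Set α} (hK : K.Finite)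
    (h0 : ∀ n, f^[n] c0 ∈ K) : ∃ T, Cyc f c0 T := by
  classical
  have : ∃ m n : ℕ, m < n ∧ f^[m] c0 = f^[n] c0 := by
    by_contra hcon
    push Not at hcon
    have hinj : Injective (fun n : ℕ => f^[n] c0) := by
      intro a b hab
      rcases lt_trichotomy a b with h | h | h
      · exact absurd hab (hcon a b h)
      · exact h
      · exact absurd hab.symm (hcon b a h)
    exact Set.infinite_of_injective_forall_mem hinj h0 hK
  obtain ⟨m, n, hmn, e⟩ := this
  have h1 : f^[n - m] c0 = c0 := iterate_cancel hf e.symm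
  have hex : ∃ k, 0 < k ∧ f^[k] c0 = c0 := ⟨n - m, by omega, h1⟩
  refine ⟨Nat.find hex, (Nat.find_spec hex).1, (Nat.find_spec hex).2, ?_⟩
  intro k hk hlt hc
  exact Nat.find_min hex hlt ⟨hk, hc⟩

/-- accumulated weight before time `n` -/
def tt (f : α → α) (e : α → ℤ) (c0 : α) (n : ℕ) : ℤ := ∑ k ∈ range n, e (f^[k] c0)

omit [DecidableEq α] in
lemma tt_succ (f : α → α) (e : α → ℤ) (c0 : α) (n : ℕ) :
    tt f e c0 (n + 1) = tt f e c0 n + e (f^[n] c0) := by
  unfold tt; rw [sum_range_succ]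

omit [DecidableEq α] in
/-- The surgery lemma: `A` and `B` are both on the cycle of `f`, at times `i < j`,
and `f'` is `f` with the images of `A` and `B` exchanged. -/
theorem split {f f' : α → α} {e e' : α → ℤ} {c0 A B : α} {T i j : ℕ}
    (hf : Injective f) (hT : Cyc f c0 T)
    (hA : f' A = f B)
    (ho : ∀ c, c ≠ A → c ≠ B → f' c = f c ∧ e' c = e c)
    (hi : f^[i] c0 = A) (hj : f^[j] c0 = B) (hij : i < j) (hjT : j < T) :
    Cyc f' c0 (T - (j - i)) ∧ (∀ n, n ≤ i → f'^[n] c0 = f^[n] c0) ∧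
    (∀ n, i < n → n ≤ T - (j - i) → f'^[n] c0 = f^[n + (j - i)] c0) ∧
    (∀ n, n ≤ i → tt f' e' c0 n = tt f e c0 n) ∧
    tt f' e' c0 (T - (j - i)) = tt f e c0 i + e' A + (tt f e c0 T - tt f e c0 j - e B) := by
  have h1 : ∀ n, n ≤ i → f'^[n] c0 = f^[n] c0 := by
    intro n
    induction n with
    | zero => intro _; rfl
    | succ n ih =>
      intro hn
      rw [iterate_succ_apply', iterate_succ_apply', ih (by omega)]
      refine (ho _ ?_ ?_).1
      · intro hc; have := hT.inj hf (m := n) (n := i) (by omega) (by omega) (hc.trans hi.symm); omega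
      · intro hc; have := hT.inj hf (m := n) (n := j) (by omega) (by omega) (hc.trans hj.symm); omega
  have h2 : ∀ k, i + 1 + k ≤ T - (j - i) → f'^[i + 1 + k] c0 = f^[j + 1 + k] c0 := by
    intro k
    induction k with
    | zero =>
      intro _
      rw [Nat.add_zero, Nat.add_zero, iterate_succ_apply', iterate_succ_apply', h1 i le_rfl, hi, hj, hA]
    | succ k ih =>
      intro hk
      have e1 : i + 1 + (k + 1) = (i + 1 + k) + 1 := by omega
      have e2 : j + 1 + (k + 1) = (j + 1 + k) + 1 := by omega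
      rw [e1, e2, iterate_succ_apply', iterate_succ_apply', ih (by omega)]
      refine (ho _ ?_ ?_).1
      · intro hc
        have := hT.inj hf (m := j + 1 + k) (n := i) (by omega) (by omega) (hc.trans hi.symm); omega
      · intro hc
        have := hT.inj hf (m := j + 1 + k) (n := j) (by omega) (by omega) (hc.trans hj.symm); omega
  have h3 : ∀ n, i < n → n ≤ T - (j - i) → f'^[n] c0 = f^[n + (j - i)] c0 := by
    intro n hn hn'
    have := h2 (n - (i + 1)) (by omega)
    rw [show i + 1 + (n - (i + 1)) = n by omega, show j + 1 + (n - (i + 1)) = n + (j - i) by omega] at this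
    exact this
  have h4 : ∀ n, n ≤ i → tt f' e' c0 n = tt f e c0 n := by
    intro n hn
    unfold tt
    apply sum_congr rfl
    intro k hk
    have hk' : k < n := mem_range.mp hk
    rw [h1 k (by omega)]
    refine (ho _ ?_ ?_).2
    · intro hc; have := hT.inj hf (m := k) (n := i) (by omega) (by omega) (hc.trans hi.symm); omega
    · intro hc; have := hT.inj hf (m := k) (n := j) (by omega) (by omega) (hc.trans hj.symm); omega
  have h5 : ∀ k, i + 1 + k ≤ T - (j - i) →
      tt f' e' c0 (i + 1 + k) = tt f e c0 i + e' A + (tt f e c0 (j + 1 + k) - tt f e c0 j - e B) := by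
    intro k
    induction k with
    | zero =>
      intro _
      rw [Nat.add_zero, Nat.add_zero, tt_succ, tt_succ, h4 i le_rfl, h1 i le_rfl, hi, hj]
      ring
    | succ k ih =>
      intro hk
      have e1 : i + 1 + (k + 1) = (i + 1 + k) + 1 := by omega
      have e2 : j + 1 + (k + 1) = (j + 1 + k) + 1 := by omega
      rw [e1, e2, tt_succ, tt_succ, ih (by omega), h2 k (by omega)]
      have : e' (f^[j + 1 + k] c0) = e (f^[j + 1 + k] c0) := by
        refine (ho _ ?_ ?_).2
        · intro hc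
          have := hT.inj hf (m := j + 1 + k) (n := i) (by omega) (by omega) (hc.trans hi.symm); omega
        · intro hc
          have := hT.inj hf (m := j + 1 + k) (n := j) (by omega) (by omega) (hc.trans hj.symm); omega
      rw [this]; ring
  refine ⟨⟨by omega, ?_, ?_⟩, h1, h3, h4, ?_⟩
  · rw [h3 (T - (j - i)) (by omega) le_rfl, show T - (j - i) + (j - i) = T by omega]
    exact hT.ret
  · intro n hn hn'
    rcases Nat.lt_or_ge i n with hlt | hge
    · rw [h3 n hlt (by omega)]
      exact hT.min _ (by omega) (by omega)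
    · rw [h1 n hge]
      exact hT.min _ hn (by omega)
  · have := h5 (T - (j - i) - (i + 1)) (by omega)
    rw [show i + 1 + (T - (j - i) - (i + 1)) = T - (j - i) by omega,
      show j + 1 + (T - (j - i) - (i + 1)) = T by omega] at this
    exact this

/-- contribution of the visit to `c` -/
def Gc (φ : ℤ → ℝ) (f : α → α) (e : α → ℤ) (c0 : α) (T : ℕ) (c : α) : ℝ :=
  ∑ n ∈ range T, if f^[n] c0 = c then
    (if e c = 1 then φ (tt f e c0 n) else - φ (tt f e c0 n - 1)) else 0

lemma Gc_eq {φ : ℤ → ℝ} {f : α → α} {e : α → ℤ} {c0 : α} {T : ℕ} {c : α} (hf : Injective f)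
    (hT : Cyc f c0 T) {i : ℕ} (hi : i < T) (hc : f^[i] c0 = c) :
    Gc φ f e c0 T c = (if e c = 1 then φ (tt f e c0 i) else - φ (tt f e c0 i - 1)) := by
  unfold Gc
  rw [sum_eq_single i]
  · rw [if_pos hc]
  · intro n hn hne
    rw [if_neg]
    intro hcc
    exact hne (hT.inj hf (mem_range.mp hn) hi (hcc.trans hc.symm))
  · intro h; exact absurd (mem_range.mpr hi) h

lemma Gc_eq_zero {φ : ℤ → ℝ} {f : α → α} {e : α → ℤ} {c0 : α} {T : ℕ} {c : α}
    (h : ∀ n < T, f^[n] c0 ≠ c) : Gc φ f e c0 T c = 0 := by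
  unfold Gc
  apply sum_eq_zero
  intro n hn
  rw [if_neg (h n (mem_range.mp hn))]

/-- a primitive of `φ` -/
noncomputable def prim (φ : ℤ → ℝ) (n : ℤ) : ℝ :=
  ∑ k ∈ Finset.Ico 0 n, φ k - ∑ k ∈ Finset.Ico n 0, φ k

lemma prim_succ (φ : ℤ → ℝ) (n : ℤ) : prim φ (n + 1) = prim φ n + φ n := by
  unfold prim
  rcases lt_or_ge n 0 with h | h
  · rw [Finset.Ico_eq_empty (by omega : ¬ (0 : ℤ) < n + 1), Finset.Ico_eq_empty (by omega : ¬ (0 : ℤ) < n)]
    have : Finset.Ico n 0 = insert n (Finset.Ico (n + 1) 0) := by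
      ext k; simp only [Finset.mem_Ico, Finset.mem_insert]; omega
    rw [this, Finset.sum_insert (by simp)]
    simp
  · rw [Finset.Ico_eq_empty (by omega : ¬ n < 0), Finset.Ico_eq_empty (by omega : ¬ n + 1 < 0)]
    have : Finset.Ico 0 (n + 1) = insert n (Finset.Ico 0 n) := by
      ext k; simp only [Finset.mem_Ico, Finset.mem_insert]; omega
    rw [this, Finset.sum_insert (by simp)]
    simp; ring

lemma sum_Gc {φ : ℤ → ℝ} {f : α → α} {e : α → ℤ} {c0 : α} {T : ℕ} (he : ∀ c, e c = 1 ∨ e c = -1)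
    (K : Finset α) (hK : ∀ n < T, f^[n] c0 ∈ K) :
    ∑ c ∈ K, Gc φ f e c0 T c = prim φ (tt f e c0 T) := by
  unfold Gc
  rw [sum_comm]
  have h1 : ∀ n ∈ range T, (∑ c ∈ K, if f^[n] c0 = c then
      (if e c = 1 then φ (tt f e c0 n) else - φ (tt f e c0 n - 1)) else 0)
      = prim φ (tt f e c0 (n + 1)) - prim φ (tt f e c0 n) := by
    intro n hn
    rw [sum_ite_eq, if_pos (hK n (mem_range.mp hn)), tt_succ]
    rcases he (f^[n] c0) with h | h
    · rw [if_pos h, h, prim_succ]; ring
    · rw [if_neg (by rw [h]; norm_num), h]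
      have := prim_succ φ (tt f e c0 n - 1)
      rw [show tt f e c0 n - 1 + 1 = tt f e c0 n by ring] at this
      rw [show tt f e c0 n + -1 = tt f e c0 n - 1 by ring]
      rw [this]; ring
  rw [sum_congr rfl h1, sum_range_sub (fun n => prim φ (tt f e c0 n))]
  have : prim φ (tt f e c0 0) = 0 := by
    simp [tt, prim]
  rw [this]; ring

/-- Local relation, both corners visited by `f` -/
theorem local_both {φ : ℤ → ℝ} {r : ℝ} (hφ : ∀ t, φ (t + 1) + φ (t - 1) = r * φ t)
    {f f' : α → α} {e e' : α → ℤ} {c0 A B : α} {T T' i j : ℕ} {η : ℤ}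
    (hf : Injective f) (hf' : Injective f') (hT : Cyc f c0 T) (hT' : Cyc f' c0 T')
    (hA : f' A = f B)
    (ho : ∀ c, c ≠ A → c ≠ B → f' c = f c ∧ e' c = e c)
    (hη : η = 1 ∨ η = -1) (eA : e A = η) (eB : e B = η) (eA' : e' A = -η)
    (ht : tt f e c0 T = 4) (ht' : tt f' e' c0 T' = 4)
    (hi : f^[i] c0 = A) (hj : f^[j] c0 = B) (hij : i < j) (hjT : j < T) :
    (Gc φ f e c0 T A + Gc φ f e c0 T B) + r * (Gc φ f' e' c0 T' A + Gc φ f' e' c0 T' B) = 0 := by
  obtain ⟨s1, s2, s3, s4, s5⟩ := split hf hT hA ho hi hj hij hjT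
  have hTT : T' = T - (j - i) := hT'.unique s1
  subst hTT
  rw [ht', ht, eA', eB] at s5
  have iT : i < T - (j - i) := by omega
  have g1 : Gc φ f e c0 T A = _ := Gc_eq (φ := φ) (e := e) hf hT (by omega : i < T) hi
  have g2 : Gc φ f e c0 T B = _ := Gc_eq (φ := φ) (e := e) hf hT hjT hj
  have g3 : Gc φ f' e' c0 (T - (j - i)) A = _ := Gc_eq (φ := φ) (e := e') hf' s1 iT
    ((s2 i le_rfl).trans hi)
  have g4 : Gc φ f' e' c0 (T - (j - i)) B = 0 := by
    apply Gc_eq_zero
    intro n hn hc
    rcases Nat.lt_or_ge i n with hlt | hge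
    · rw [s3 n hlt (by omega)] at hc
      have := hT.inj hf (m := n + (j - i)) (n := j) (by omega) hjT (hc.trans hj.symm)
      omega
    · rw [s2 n hge] at hc
      have := hT.inj hf (m := n) (n := j) (by omega) hjT (hc.trans hj.symm)
      omega
  rw [g1, g2, g3, g4, eA, eB, eA', s4 i le_rfl]
  have hj2 : tt f e c0 j = tt f e c0 i - 2 * η := by linarith
  rw [hj2]
  rcases hη with rfl | rfl
  · norm_num
    have := hφ (tt f e c0 i - 1)
    rw [show tt f e c0 i - 1 + 1 = tt f e c0 i by ring, show tt f e c0 i - 1 - 1 = tt f e c0 i - 2 by ring] at this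
    linarith
  · norm_num
    have := hφ (tt f e c0 i)
    rw [show tt f e c0 i + 2 - 1 = tt f e c0 i + 1 by ring]
    linarith

omit [DecidableEq α] in
/-- If only `A` is on the cycle of `c0` under `f`, then both are on it under `f'`. -/
lemma one_to_both {f f' : α → α} {c0 A B : α} {T T2 T' i : ℕ}
    (hf : Injective f) (hT : Cyc f c0 T) (hT2 : Cyc f B T2) (hT' : Cyc f' c0 T')
    (hA : f' A = f B)
    (ho : ∀ c, c ≠ A → c ≠ B → f' c = f c)
    (hi : f^[i] c0 = A) (hiT : i < T) (hB : ∀ n < T, f^[n] c0 ≠ B) :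
    ∃ j, f'^[i] c0 = A ∧ f'^[j] c0 = B ∧ i < j ∧ j < T' := by
  have hA2 : ∀ n, f^[n] B ≠ A := by
    intro n hn
    -- then B is on the orbit of c0
    have h1 : f^[i] c0 = f^[n] B := hi.trans hn.symm
    -- f^[m] B with m = T2 * k - n ...
    obtain ⟨m, hm⟩ : ∃ m, f^[m] (f^[n] B) = B := by
      refine ⟨T2 - n % T2, ?_⟩
      rw [hT2.mod n, ← iterate_add_apply,
        Nat.sub_add_cancel (Nat.mod_lt n hT2.pos).le]
      exact hT2.ret
    rw [← h1, ← iterate_add_apply, hT.mod] at hm
    exact hB _ (Nat.mod_lt _ hT.pos) hm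
  have h1 : ∀ n, n ≤ i → f'^[n] c0 = f^[n] c0 := by
    intro n
    induction n with
    | zero => intro _; rfl
    | succ n ih =>
      intro hn
      rw [iterate_succ_apply', iterate_succ_apply', ih (by omega)]
      refine ho _ ?_ ?_
      · intro hc; have := hT.inj hf (m := n) (n := i) (by omega) (by omega) (hc.trans hi.symm); omega
      · exact hB n (by omega)
  have h2 : ∀ k, k + 1 ≤ T2 → f'^[i + 1 + k] c0 = f^[k + 1] B := by
    intro k
    induction k with
    | zero =>
      intro _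
      rw [Nat.add_zero, iterate_succ_apply', h1 i le_rfl, hi, hA]
      rfl
    | succ k ih =>
      intro hk
      have e1 : i + 1 + (k + 1) = (i + 1 + k) + 1 := by omega
      rw [e1, iterate_succ_apply', ih (by omega), iterate_succ_apply' f (k + 1)]
      refine ho _ (hA2 _) ?_
      exact hT2.min _ (by omega) (by omega)
  have h3 : f'^[i + T2] c0 = B := by
    have hp := hT2.pos
    have := h2 (T2 - 1) (by omega)
    rw [show i + 1 + (T2 - 1) = i + T2 by omega, show T2 - 1 + 1 = T2 by omega] at this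
    exact this.trans hT2.ret
  rw [hT'.mod] at h3
  refine ⟨(i + T2) % T', (h1 i le_rfl).trans hi, h3, ?_, Nat.mod_lt _ hT'.pos⟩
  by_contra hcon
  rw [h1 _ (by omega)] at h3
  exact hB _ (by omega) h3

/-- The local relation at one tile. `f` is the closed version, `f'` the open one. -/
theorem local_rel {φ : ℤ → ℝ} {r w w' : ℝ} (hφ : ∀ t, φ (t + 1) + φ (t - 1) = r * φ t)
    {f f' : α → α} {e e' : α → ℤ} {c0 A B : α} {T T' : ℕ}
    (hf : Injective f) (hf' : Injective f') (hT : Cyc f c0 T) (hT' : Cyc f' c0 T')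
    (hTA : ∃ T2, Cyc f A T2) (hTB : ∃ T2, Cyc f B T2)
    (hAB : A ≠ B)
    (hA : f' A = f B) (hB : f' B = f A)
    (ho : ∀ c, c ≠ A → c ≠ B → f' c = f c ∧ e' c = e c)
    (eA : e A = 1) (eB : e B = 1) (eA' : e' A = -1) (eB' : e' B = -1)
    (ht : tt f e c0 T = 4) (ht' : tt f' e' c0 T' = 4)
    (w1 : (∃ n < T, f^[n] c0 = A) → (∃ n < T, f^[n] c0 = B) → w' = r * w)
    (w2 : (∃ n < T, f^[n] c0 = A) → (∀ n < T, f^[n] c0 ≠ B) → w = r * w')
    (w3 : (∃ n < T, f^[n] c0 = B) → (∀ n < T, f^[n] c0 ≠ A) → w = r * w') :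
    w * (Gc φ f e c0 T A + Gc φ f e c0 T B) + w' * (Gc φ f' e' c0 T' A + Gc φ f' e' c0 T' B) = 0 := by
  by_cases vA : ∃ n < T, f^[n] c0 = A
  · by_cases vB : ∃ n < T, f^[n] c0 = B
    · have hw := w1 vA vB
      obtain ⟨i, hiT, hi⟩ := vA
      obtain ⟨j, hjT, hj⟩ := vB
      rcases lt_trichotomy i j with h | h | h
      · have := local_both (η := 1) hφ hf hf' hT hT' hA ho (Or.inl rfl) eA eB eA' ht ht' hi hj h hjT
        rw [hw]; linear_combination w * this
      · subst h; exact absurd (hi.symm.trans hj) hAB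
      · have := local_both (η := 1) hφ hf hf' hT hT' hB (fun c h1 h2 => ho c h2 h1) (Or.inl rfl)
          eB eA eB' ht ht' hj hi h hiT
        rw [hw]; linear_combination w * this
    · push Not at vB
      have hw := w2 vA vB
      obtain ⟨i, hiT, hi⟩ := vA
      obtain ⟨T2, hT2⟩ := hTB
      obtain ⟨j, a1, a2, a3, a4⟩ := one_to_both hf hT hT2 hT' hA (fun c h1 h2 => (ho c h1 h2).1) hi hiT vB
      have := local_both (η := -1) hφ hf' hf hT' hT hB.symm
        (fun c h1 h2 => ⟨((ho c h1 h2).1).symm, ((ho c h1 h2).2).symm⟩) (Or.inr rfl)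
        eA' eB' (by rw [eA]; norm_num) ht' ht a1 a2 a3 a4
      rw [hw]; linear_combination w' * this
  · push Not at vA
    by_cases vB : ∃ n < T, f^[n] c0 = B
    · have hw := w3 vB vA
      obtain ⟨i, hiT, hi⟩ := vB
      obtain ⟨T2, hT2⟩ := hTA
      obtain ⟨j, a1, a2, a3, a4⟩ := one_to_both hf hT hT2 hT' hB (fun c h1 h2 => (ho c h2 h1).1) hi hiT vA
      have := local_both (η := -1) hφ hf' hf hT' hT hA.symm
        (fun c h1 h2 => ⟨((ho c h2 h1).1).symm, ((ho c h2 h1).2).symm⟩) (Or.inr rfl)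
        eB' eA' (by rw [eB]; norm_num) ht' ht a1 a2 a3 a4
      rw [hw]; linear_combination w' * this
    · push Not at vB
      -- same orbit
      have h1 : ∀ n, f'^[n] c0 = f^[n] c0 := by
        intro n
        induction n with
        | zero => rfl
        | succ n ih =>
          rw [iterate_succ_apply', iterate_succ_apply', ih]
          refine (ho _ ?_ ?_).1
          · rw [hT.mod n]; exact vA _ (Nat.mod_lt _ hT.pos)
          · rw [hT.mod n]; exact vB _ (Nat.mod_lt _ hT.pos)
      have z1 : Gc φ f e c0 T A = 0 := Gc_eq_zero vA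
      have z2 : Gc φ f e c0 T B = 0 := Gc_eq_zero vB
      have z3 : Gc φ f' e' c0 T' A = 0 := by
        apply Gc_eq_zero
        intro n _
        rw [h1, hT.mod n]; exact vA _ (Nat.mod_lt _ hT.pos)
      have z4 : Gc φ f' e' c0 T' B = 0 := by
        apply Gc_eq_zero
        intro n _
        rw [h1, hT.mod n]; exact vB _ (Nat.mod_lt _ hT.pos)
      rw [z1, z2, z3, z4]; ring

end Pool.Agent.H95.SumRule
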