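import Mathlib
import Pool.Agent.H95.SumRule.Corner
import Pool.Agent.H95.SumRule.Orbit

namespace Pool.Agent.H95.SumRule

open Function Finset

/-- the square lattice -/
def Z2 : SimpleGraph (ℤ × ℤ) where
  Adj u v := IsUnit2 (v - u)
  symm := ⟨fun u v h => by
    have := isUnit2_neg h
    rwa [neg_sub] at this⟩
  loopless := ⟨fun u h => by
    rw [sub_self] at h
    exact unit_ne h ⟨rfl, rfl⟩⟩

def wsum (F : ℤ × ℤ → ℤ × ℤ → ZMod 2) {u v : ℤ × ℤ} (p : Z2.Walk u v) : ZMod 2 :=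
  (p.darts.map (fun d => F d.fst d.snd)).sum

lemma wsum_nil (F : ℤ × ℤ → ℤ × ℤ → ZMod 2) (u : ℤ × ℤ) :
    wsum F (SimpleGraph.Walk.nil : Z2.Walk u u) = 0 := by simp [wsum]

lemma wsum_cons (F : ℤ × ℤ → ℤ × ℤ → ZMod 2) {u v w : ℤ × ℤ} (h : Z2.Adj u v) (p : Z2.Walk v w) :
    wsum F (SimpleGraph.Walk.cons h p) = F u v + wsum F p := by simp [wsum]

lemma wsum_append (F : ℤ × ℤ → ℤ × ℤ → ZMod 2) {u v w : ℤ × ℤ} (p : Z2.Walk u v) (q : Z2.Walk v w) :
    wsum F (p.append q) = wsum F p + wsum F q := by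
  simp [wsum, SimpleGraph.Walk.darts_append]

lemma wsum_add (F G : ℤ × ℤ → ℤ × ℤ → ZMod 2) {u v : ℤ × ℤ} (p : Z2.Walk u v) :
    wsum (fun a b => F a b + G a b) p = wsum F p + wsum G p := by
  induction p with
  | nil => simp [wsum_nil]
  | cons h p ih => rw [wsum_cons, wsum_cons, wsum_cons, ih]; ring

lemma wsum_congr (F G : ℤ × ℤ → ℤ × ℤ → ZMod 2) {u v : ℤ × ℤ} (p : Z2.Walk u v)
    (h : ∀ a b, Z2.Adj a b → F a b = G a b) : wsum F p = wsum G p := by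
  induction p with
  | nil => simp [wsum_nil]
  | cons hadj p ih => rw [wsum_cons, wsum_cons, ih, h _ _ hadj]

lemma wsum_cut (g : ℤ × ℤ → ZMod 2) {u v : ℤ × ℤ} (p : Z2.Walk u v) :
    wsum (fun a b => g a + g b) p = g u + g v := by
  induction p with
  | nil => rw [wsum_nil]; exact (CharTwo.add_self_eq_zero _).symm
  | cons h p ih =>
    rename_i a b c
    rw [wsum_cons, ih]
    linear_combination CharTwo.add_self_eq_zero (g b)

/-- indicator of an edge -/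
def Xe (e : Sym2 (ℤ × ℤ)) (a b : ℤ × ℤ) : ZMod 2 := if s(a, b) = e then 1 else 0

/-- vertical step between rows `j` and `j+1` in a column at most `i` -/
def Hf (i j : ℤ) (a b : ℤ × ℤ) : ZMod 2 :=
  if a.1 = b.1 ∧ a.1 ≤ i ∧ ((a.2 = j ∧ b.2 = j + 1) ∨ (b.2 = j ∧ a.2 = j + 1)) then 1 else 0

def face (c : Corner) : ℤ × ℤ :=
  match c.2 with
  | Dir.E => (c.1.1, c.1.2 - 1)
  | Dir.N => (c.1.1, c.1.2)
  | Dir.W => (c.1.1 - 1, c.1.2)
  | Dir.S => (c.1.1 - 1, c.1.2 - 1)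

lemma Hf_vert (i j : ℤ) {a b : ℤ × ℤ} (h : Z2.Adj a b) :
    Hf i j a b + Hf (i - 1) j a b = Xe s((i, j), (i, j + 1)) a b := by
  obtain ⟨a1, a2⟩ := a
  obtain ⟨b1, b2⟩ := b
  simp only [Z2, IsUnit2, Prod.fst_sub, Prod.snd_sub] at h
  simp only [Hf, Xe, Sym2.eq_iff, Prod.mk.injEq]
  have h2 : (1 : ZMod 2) + 1 = 0 := by decide
  split_ifs <;> first | (exfalso; omega) | simp [h2]

lemma Hf_horiz (i j : ℤ) {a b : ℤ × ℤ} (h : Z2.Adj a b) :
    Hf i j a b + Hf i (j - 1) a b + Xe s((i, j), (i + 1, j)) a b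
      = (if a.1 ≤ i ∧ a.2 = j then 1 else 0) + (if b.1 ≤ i ∧ b.2 = j then 1 else 0) := by
  obtain ⟨a1, a2⟩ := a
  obtain ⟨b1, b2⟩ := b
  simp only [Z2, IsUnit2, Prod.fst_sub, Prod.snd_sub] at h
  simp only [Hf, Xe, Sym2.eq_iff, Prod.mk.injEq]
  have h2 : (1 : ZMod 2) + 1 = 0 := by decide
  split_ifs <;> first | (exfalso; omega) | simp [h2]

lemma vert_rel (i j : ℤ) {u v : ℤ × ℤ} (p : Z2.Walk u v) :
    wsum (Hf i j) p + wsum (Hf (i - 1) j) p = wsum (Xe s((i, j), (i, j + 1))) p := by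
  rw [← wsum_add]
  exact wsum_congr _ _ p (fun a b hab => Hf_vert i j hab)

lemma horiz_rel (i j : ℤ) {u : ℤ × ℤ} (p : Z2.Walk u u) :
    wsum (Hf i j) p + wsum (Hf i (j - 1)) p = wsum (Xe s((i, j), (i + 1, j))) p := by
  have h1 := wsum_cut (fun a : ℤ × ℤ => if a.1 ≤ i ∧ a.2 = j then (1 : ZMod 2) else 0) p
  have h2 : wsum (fun a b => (Hf i j a b + Hf i (j - 1) a b) + Xe s((i, j), (i + 1, j)) a b) p
      = wsum (fun a b => (if a.1 ≤ i ∧ a.2 = j then (1 : ZMod 2) else 0)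
        + (if b.1 ≤ i ∧ b.2 = j then 1 else 0)) p :=
    wsum_congr _ _ p (fun a b hab => Hf_horiz i j hab)
  rw [wsum_add, wsum_add, h1] at h2
  rw [CharTwo.add_self_eq_zero] at h2
  exact CharTwo.add_eq_zero.mp h2

/-- the height function of a closed walk at the face of a corner -/
def Hc {u : ℤ × ℤ} (p : Z2.Walk u u) (c : Corner) : ZMod 2 := wsum (Hf (face c).1 (face c).2) p

lemma Hc_closed {u : ℤ × ℤ} (p : Z2.Walk u u) (c : Corner) :
    Hc p c + Hc p (c.1, c.2.lft) = wsum (Xe (head c)) p := by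
  obtain ⟨⟨a, b⟩, d⟩ := c
  cases d
  · have := horiz_rel a b p
    simp only [Hc, face, Dir.lft, head, Dir.vec, Prod.mk_add_mk, add_zero]
    rw [← this, add_comm]
  · have := vert_rel a b p
    simp only [Hc, face, Dir.lft, head, Dir.vec, Prod.mk_add_mk, add_zero]
    exact this
  · have := horiz_rel (a - 1) b p
    simp only [Hc, face, Dir.lft, head, Dir.vec, Prod.mk_add_mk, add_zero]
    rw [this]
    congr 2
    rw [show a - 1 + 1 = a by ring, show a + -1 = a - 1 by ring]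
    exact Sym2.eq_swap
  · have := vert_rel a (b - 1) p
    simp only [Hc, face, Dir.lft, head, Dir.vec, Prod.mk_add_mk, add_zero]
    rw [add_comm, this]
    congr 2
    rw [show b - 1 + 1 = b by ring, show b + -1 = b - 1 by ring]
    exact Sym2.eq_swap

lemma Hc_open {u : ℤ × ℤ} (p : Z2.Walk u u) (c : Corner) :
    Hc p (c.1 + c.2.vec, c.2.rgt) = Hc p c := by
  obtain ⟨⟨a, b⟩, d⟩ := c
  cases d <;> simp [Hc, face, Dir.rgt, Dir.vec] <;> ring_nf

/-- closed walks and closed face-walks cross an even number of times -/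
theorem parity {ω : Finset (Sym2 (ℤ × ℤ))} {c0 : Corner} {T : ℕ} (hT : Cyc (nxt ω) c0 T)
    {u : ℤ × ℤ} (p : Z2.Walk u u) :
    ∑ n ∈ range T, (if head ((nxt ω)^[n] c0) ∈ ω then 0 else
      wsum (Xe (head ((nxt ω)^[n] c0))) p) = 0 := by
  have h1 : ∀ n ∈ range T, (if head ((nxt ω)^[n] c0) ∈ ω then 0 else
      wsum (Xe (head ((nxt ω)^[n] c0))) p) = Hc p ((nxt ω)^[n+1] c0) - Hc p ((nxt ω)^[n] c0) := by
    intro n _
    rw [iterate_succ_apply']
    by_cases h : head ((nxt ω)^[n] c0) ∈ ω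
    · rw [if_pos h, nxt_mem h, Hc_open, sub_self]
    · rw [if_neg h, nxt_not_mem h, ← Hc_closed, CharTwo.sub_eq_add, add_comm]
  rw [sum_congr rfl h1, sum_range_sub (fun n => Hc p ((nxt ω)^[n] c0)), hT.ret]
  simp

end Pool.Agent.H95.SumRule
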