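import Mathlib
import Pool.Agent.H95.SumRule.Defs
import Pool.Agent.H95.SumRule.Parity

namespace Pool.Agent.H95.SumRule

open Function Finset

variable {V : Finset (ℤ × ℤ)} {ω : Finset (Sym2 (ℤ × ℤ))}

lemma mem_edgesIn {e : Sym2 (ℤ × ℤ)} : e ∈ edgesIn V ↔
    (∃ v, v ∈ V ∧ v + (1, 0) ∈ V ∧ s(v, v + (1, 0)) = e) ∨
    (∃ v, v ∈ V ∧ v + (0, 1) ∈ V ∧ s(v, v + (0, 1)) = e) := by
  simp [edgesIn, and_assoc]

lemma unit_vec (d : Dir) : IsUnit2 d.vec := by cases d <;> simp [IsUnit2, Dir.vec]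

lemma edgesIn_adj {x y : ℤ × ℤ} (h : s(x, y) ∈ edgesIn V) : x ∈ V ∧ y ∈ V ∧ Z2.Adj x y := by
  rw [mem_edgesIn] at h
  rcases h with ⟨v, h1, h2, h3⟩ | ⟨v, h1, h2, h3⟩
  · rw [Sym2.eq_iff] at h3
    rcases h3 with ⟨rfl, rfl⟩ | ⟨rfl, rfl⟩
    · exact ⟨h1, h2, by simp [Z2, IsUnit2]⟩
    · exact ⟨h2, h1, by simp [Z2, IsUnit2]⟩
  · rw [Sym2.eq_iff] at h3
    rcases h3 with ⟨rfl, rfl⟩ | ⟨rfl, rfl⟩
    · exact ⟨h1, h2, by simp [Z2, IsUnit2]⟩
    · exact ⟨h2, h1, by simp [Z2, IsUnit2]⟩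

lemma head_mem_edgesIn {c : Corner} : head c ∈ edgesIn V ↔ c.1 ∈ V ∧ c.1 + c.2.vec ∈ V := by
  constructor
  · intro h
    have := edgesIn_adj h
    exact ⟨this.1, this.2.1⟩
  · rintro ⟨h1, h2⟩
    obtain ⟨⟨a, b⟩, d⟩ := c
    rw [mem_edgesIn]
    cases d
    · left; exact ⟨(a, b), h1, h2, rfl⟩
    · right; exact ⟨(a, b), h1, h2, rfl⟩
    · left
      refine ⟨(a - 1, b), ?_, ?_, ?_⟩
      · simpa [Dir.vec, sub_eq_add_neg] using h2
      · simpa using h1
      · simp only [head, Dir.vec]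
        rw [Sym2.eq_swap]; simp [sub_eq_add_neg]
    · right
      refine ⟨(a, b - 1), ?_, ?_, ?_⟩
      · simpa [Dir.vec, sub_eq_add_neg] using h2
      · simpa using h1
      · simp only [head, Dir.vec]
        rw [Sym2.eq_swap]; simp [sub_eq_add_neg]

lemma openGraph_adj {x y : ℤ × ℤ} : (openGraph ω).Adj x y ↔ s(x, y) ∈ ω ∧ x ≠ y := by
  simp [openGraph]

lemma openGraph_le (hω : ω ⊆ edgesIn V) : openGraph ω ≤ Z2 := by
  intro x y h
  rw [openGraph_adj] at h
  exact (edgesIn_adj (hω h.1)).2.2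

lemma reach_mem (hω : ω ⊆ edgesIn V) {x y : ℤ × ℤ} (hx : x ∈ V)
    (h : (openGraph ω).Reachable x y) : y ∈ V := by
  obtain ⟨p⟩ := h
  induction p with
  | nil => exact hx
  | cons hadj p ih =>
    apply ih
    rw [openGraph_adj] at hadj
    exact (edgesIn_adj (hω hadj.1)).2.1

lemma vec_ne (v : ℤ × ℤ) (d : Dir) : v ≠ v + d.vec := by
  intro h
  have h2 : d.vec = 0 := by simpa using h.symm
  have := unit_ne (unit_vec d)
  rw [h2] at this
  exact this ⟨rfl, rfl⟩

lemma reach_orbit {c0 : Corner} (n : ℕ) :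
    (openGraph ω).Reachable c0.1 ((nxt ω)^[n] c0).1 := by
  induction n with
  | zero => exact SimpleGraph.Reachable.refl _
  | succ n ih =>
    rw [iterate_succ_apply']
    by_cases h : head ((nxt ω)^[n] c0) ∈ ω
    · rw [nxt_mem h]
      refine ih.trans (SimpleGraph.Adj.reachable ?_)
      rw [openGraph_adj]
      exact ⟨h, vec_ne _ _⟩
    · rw [nxt_not_mem h]; exact ih

/-- all corners of the domain -/
def cornersOf (V : Finset (ℤ × ℤ)) : Finset Corner := V ×ˢ {Dir.E, Dir.N, Dir.W, Dir.S}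

lemma mem_cornersOf {c : Corner} : c ∈ cornersOf V ↔ c.1 ∈ V := by
  obtain ⟨v, d⟩ := c
  simp only [cornersOf, mem_product, mem_insert, mem_singleton, and_iff_left_iff_imp]
  intro _
  cases d <;> simp

lemma orbit_mem (hω : ω ⊆ edgesIn V) {c0 : Corner} (h0 : c0.1 ∈ V) (n : ℕ) :
    ((nxt ω)^[n] c0).1 ∈ V := reach_mem hω h0 (reach_orbit n)

lemma exists_cyc (hω : ω ⊆ edgesIn V) {c0 : Corner} (h0 : c0.1 ∈ V) : ∃ T, Cyc (nxt ω) c0 T := by
  apply exists_cyc_of_finite (nxt_injective ω) (K := (cornersOf V : Set Corner)) (finite_toSet _)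
  intro n
  exact mem_cornersOf.mpr (orbit_mem hω h0 n)

/-- walk in the open graph does not use closed edges -/
lemma wsum_open (hω : ω ⊆ edgesIn V) {x y : ℤ × ℤ} (h : (openGraph ω).Reachable x y) :
    ∃ p : Z2.Walk x y, ∀ g, g ∉ ω → wsum (Xe g) p = 0 := by
  obtain ⟨p⟩ := h
  induction p with
  | nil => exact ⟨SimpleGraph.Walk.nil, fun g _ => wsum_nil _ _⟩
  | cons hadj p ih =>
    obtain ⟨q, hq⟩ := ih
    refine ⟨SimpleGraph.Walk.cons (openGraph_le hω hadj) q, ?_⟩
    intro g hg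
    rw [wsum_cons, hq g hg, add_zero, Xe, if_neg]
    rintro rfl
    rw [openGraph_adj] at hadj
    exact hg hadj.1

/-- number of visits mod 2 -/
def vis2 (ω : Finset (Sym2 (ℤ × ℤ))) (c0 : Corner) (T : ℕ) (c : Corner) : ZMod 2 :=
  ∑ n ∈ range T, if (nxt ω)^[n] c0 = c then 1 else 0

lemma vis2_eq {c0 : Corner} {T : ℕ} (hT : Cyc (nxt ω) c0 T) (c : Corner) :
    vis2 ω c0 T c = 0 ↔ ∀ n < T, (nxt ω)^[n] c0 ≠ c := by
  constructor
  · intro h n hn hc
    unfold vis2 at h
    rw [sum_eq_single n] at h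
    · rw [if_pos hc] at h; exact one_ne_zero h
    · intro k hk hne
      rw [if_neg]
      intro hcc
      exact hne (hT.inj (nxt_injective ω) (mem_range.mp hk) hn (hcc.trans hc.symm))
    · intro h'; exact absurd (mem_range.mpr hn) h'
  · intro h
    unfold vis2
    apply sum_eq_zero
    intro n hn
    rw [if_neg (h n (mem_range.mp hn))]

lemma vis2_one {c0 : Corner} {T : ℕ} (hT : Cyc (nxt ω) c0 T) {c : Corner}
    (h : ∃ n < T, (nxt ω)^[n] c0 = c) : vis2 ω c0 T c = 1 := by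
  obtain ⟨n, hn, hc⟩ := h
  unfold vis2
  rw [sum_eq_single n]
  · rw [if_pos hc]
  · intro k hk hne
    rw [if_neg]
    intro hcc
    exact hne (hT.inj (nxt_injective ω) (mem_range.mp hk) hn (hcc.trans hc.symm))
  · intro h'; exact absurd (mem_range.mpr hn) h'

/-- If the two ends of a closed tile are connected, its two corners are on the same cycle. -/
theorem both_of_reach (hω : ω ⊆ edgesIn V) {c0 A : Corner} {T : ℕ} (hT : Cyc (nxt ω) c0 T)
    (hA : head A ∉ ω) (hr : (openGraph ω).Reachable A.1 (A.1 + A.2.vec))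
    (hv : ∃ n < T, (nxt ω)^[n] c0 = A) : ∃ n < T, (nxt ω)^[n] c0 = mate A := by
  obtain ⟨p, hp⟩ := wsum_open hω hr
  have hadj : Z2.Adj (A.1 + A.2.vec) A.1 := by
    simp only [Z2]
    have := isUnit2_neg (unit_vec A.2)
    rwa [show A.1 - (A.1 + A.2.vec) = -A.2.vec by abel]
  have par := parity hT (p.append (SimpleGraph.Walk.cons hadj SimpleGraph.Walk.nil))
  have key : ∀ n ∈ range T, (if head ((nxt ω)^[n] c0) ∈ ω then 0 else
      wsum (Xe (head ((nxt ω)^[n] c0))) (p.append (SimpleGraph.Walk.cons hadj SimpleGraph.Walk.nil)))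
      = (if (nxt ω)^[n] c0 = A then 1 else 0) + (if (nxt ω)^[n] c0 = mate A then 1 else 0) := by
    intro n _
    by_cases h : head ((nxt ω)^[n] c0) ∈ ω
    · rw [if_pos h, if_neg, if_neg, add_zero]
      · intro hc; rw [hc, head_mate] at h; exact hA h
      · intro hc; rw [hc] at h; exact hA h
    · rw [if_neg h, wsum_append, wsum_cons, wsum_nil, hp _ h, add_zero, zero_add]
      unfold Xe
      have e1 : s(A.1 + A.2.vec, A.1) = head A := by
        unfold head; exact Sym2.eq_swap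
      rw [e1]
      by_cases h1 : (nxt ω)^[n] c0 = A
      · rw [h1, if_pos rfl, if_pos rfl, if_neg (mate_ne A).symm, add_zero]
      · by_cases h2 : (nxt ω)^[n] c0 = mate A
        · rw [h2, head_mate, if_pos rfl, if_neg (mate_ne A), if_pos rfl, zero_add]
        · rw [if_neg h1, if_neg h2, if_neg, add_zero]
          intro hc
          rcases (head_eq_iff A _).mp hc with h3 | h3
          · exact h1 h3
          · exact h2 h3
  rw [sum_congr rfl key, sum_add_distrib] at par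
  have v1 := vis2_one hT hv
  unfold vis2 at v1
  rw [v1] at par
  by_contra hcon
  push Not at hcon
  have v2 := (vis2_eq hT (mate A)).mpr hcon
  unfold vis2 at v2
  rw [v2, add_zero] at par
  exact one_ne_zero par

/-- complement connected -/
def OutConn (V : Finset (ℤ × ℤ)) : Prop :=
  ∀ x y : ℤ × ℤ, x ∉ V → y ∉ V → ∃ p : Z2.Walk x y, ∀ z ∈ p.support, z ∉ V

lemma wsum_out {x y : ℤ × ℤ} (p : Z2.Walk x y) (hp : ∀ z ∈ p.support, z ∉ V) {g : Sym2 (ℤ × ℤ)}
    {v : ℤ × ℤ} (hv : v ∈ V) (hvg : v ∈ g) : wsum (Xe g) p = 0 := by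
  induction p with
  | nil => exact wsum_nil _ _
  | cons hadj p ih =>
    rename_i a b c
    rw [wsum_cons, ih (fun z hz => hp z (by simp [hz])), add_zero, Xe, if_neg]
    rintro rfl
    rw [Sym2.mem_iff] at hvg
    rcases hvg with rfl | rfl
    · exact hp v (by simp) hv
    · exact hp v (by simp) hv

/-- every boundary slot at a vertex of the cluster of the source is visited -/
theorem slot_visited (hω : ω ⊆ edgesIn V) (hout : OutConn V) {s : ℤ × ℤ} {T : ℕ}
    (hT : Cyc (nxt ω) (s, Dir.E) T) (hsV : s ∈ V) (hs : s + Dir.S.vec ∉ V)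
    {c : Corner} (hc : c.1 + c.2.vec ∉ V)
    (hr : (openGraph ω).Reachable s c.1) : ∃ n < T, (nxt ω)^[n] (s, Dir.E) = c := by
  have hlast : (nxt ω)^[T - 1] (s, Dir.E) = (s, Dir.S) := by
    apply nxt_injective ω
    rw [← iterate_succ_apply' (nxt ω), show (T - 1).succ = T by have := hT.pos; omega, hT.ret,
      nxt_not_mem]
    · rfl
    · intro h
      have := edgesIn_adj (hω h)
      exact hs this.2.1
  have hT0 := hT.pos
  by_cases hcs : c = (s, Dir.S)
  · exact ⟨T - 1, by omega, hlast.trans hcs.symm⟩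
  obtain ⟨p, hp⟩ := wsum_open hω hr
  obtain ⟨q, hq⟩ := hout (c.1 + c.2.vec) (s + Dir.S.vec) hc hs
  have hadj1 : Z2.Adj c.1 (c.1 + c.2.vec) := by
    simp only [Z2]
    rw [show c.1 + c.2.vec - c.1 = c.2.vec by abel]; exact unit_vec _
  have hadj2 : Z2.Adj (s + Dir.S.vec) s := by
    simp only [Z2]
    rw [show s - (s + Dir.S.vec) = - Dir.S.vec by abel]; exact isUnit2_neg (unit_vec _)
  set W : Z2.Walk s s := p.append (SimpleGraph.Walk.cons hadj1
    (q.append (SimpleGraph.Walk.cons hadj2 SimpleGraph.Walk.nil))) with hW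
  have par := parity hT W
  have hne : head c ≠ head (s, Dir.S) := by
    intro h
    rcases (head_eq_iff _ _).mp h with h1 | h1
    · exact hcs h1.symm
    · have : s = c.1 + c.2.vec := congrArg Prod.fst h1
      exact hc (this ▸ hsV)
  have key : ∀ n ∈ range T, (if head ((nxt ω)^[n] (s, Dir.E)) ∈ ω then 0 else
      wsum (Xe (head ((nxt ω)^[n] (s, Dir.E)))) W)
      = (if (nxt ω)^[n] (s, Dir.E) = c then 1 else 0)
        + (if (nxt ω)^[n] (s, Dir.E) = (s, Dir.S) then 1 else 0) := by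
    intro n _
    have hnV := orbit_mem hω (c0 := (s, Dir.E)) hsV n
    by_cases h : head ((nxt ω)^[n] (s, Dir.E)) ∈ ω
    · rw [if_pos h, if_neg, if_neg, add_zero]
      · intro hcc; rw [hcc] at h
        exact hs (edgesIn_adj (hω h)).2.1
      · intro hcc; rw [hcc] at h
        exact hc (edgesIn_adj (hω h)).2.1
    · rw [if_neg h, hW, wsum_append, wsum_cons, wsum_append, wsum_cons, wsum_nil, hp _ h, add_zero,
        zero_add]
      have hq0 : wsum (Xe (head ((nxt ω)^[n] (s, Dir.E)))) q = 0 :=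
        wsum_out q hq hnV (by simp [head])
      rw [hq0, zero_add]
      unfold Xe
      have e1 : s(c.1, c.1 + c.2.vec) = head c := rfl
      have e2 : s(s + Dir.S.vec, s) = head (s, Dir.S) := Sym2.eq_swap
      rw [e1, e2]
      congr 1
      · by_cases h1 : (nxt ω)^[n] (s, Dir.E) = c
        · rw [if_pos h1, if_pos (by rw [h1])]
        · rw [if_neg h1, if_neg]
          intro hh
          rcases (head_eq_iff _ _).mp hh with h2 | h2
          · exact h1 h2
          · rw [h2] at hnV; exact hc hnV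
      · by_cases h1 : (nxt ω)^[n] (s, Dir.E) = (s, Dir.S)
        · rw [if_pos h1, if_pos (by rw [h1])]
        · rw [if_neg h1, if_neg]
          intro hh
          rcases (head_eq_iff _ _).mp hh with h2 | h2
          · exact h1 h2
          · rw [h2] at hnV; exact hs hnV
  rw [sum_congr rfl key, sum_add_distrib] at par
  have v1 := vis2_one (c := (s, Dir.S)) hT ⟨T - 1, by omega, hlast⟩
  unfold vis2 at v1
  rw [v1] at par
  by_contra hcon
  push Not at hcon
  have v2 := (vis2_eq hT c).mpr hcon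
  unfold vis2 at v2
  rw [v2, zero_add] at par
  exact one_ne_zero par

end Pool.Agent.H95.SumRule
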