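import Mathlib
import Pool.Agent.H95.SumRule.Graph

namespace Pool.Agent.H95.SumRule

open Function Finset

variable {V : Finset (ℤ × ℤ)} {ω : Finset (Sym2 (ℤ × ℤ))}

lemma openGraph_mono {ω' : Finset (Sym2 (ℤ × ℤ))} (h : ω ⊆ ω') : openGraph ω ≤ openGraph ω' := by
  intro x y hxy
  rw [openGraph_adj] at *
  exact ⟨h hxy.1, hxy.2⟩

lemma reach_insert {x y : ℤ × ℤ} (hxy : x ≠ y) {u v : ℤ × ℤ} :
    (openGraph (insert s(x, y) ω)).Reachable u v ↔
      (openGraph ω).Reachable u v ∨ ((openGraph ω).Reachable u x ∧ (openGraph ω).Reachable y v) ∨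
      ((openGraph ω).Reachable u y ∧ (openGraph ω).Reachable x v) := by
  constructor
  · rintro ⟨p⟩
    induction p with
    | nil => exact Or.inl (SimpleGraph.Reachable.refl _)
    | cons hadj p ih =>
      rename_i a b c
      rw [openGraph_adj, mem_insert] at hadj
      obtain ⟨h1 | h1, hne⟩ := hadj
      · rw [Sym2.eq_iff] at h1
        rcases h1 with ⟨rfl, rfl⟩ | ⟨rfl, rfl⟩
        · rcases ih with h | h | h
          · exact Or.inr (Or.inl ⟨SimpleGraph.Reachable.refl _, h⟩)
          · exact Or.inr (Or.inl ⟨SimpleGraph.Reachable.refl _, h.2⟩)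
          · exact Or.inl h.2
        · rcases ih with h | h | h
          · exact Or.inr (Or.inr ⟨SimpleGraph.Reachable.refl _, h⟩)
          · exact Or.inl h.2
          · exact Or.inr (Or.inr ⟨SimpleGraph.Reachable.refl _, h.2⟩)
      · have hab : (openGraph ω).Reachable a b :=
          SimpleGraph.Adj.reachable (openGraph_adj.mpr ⟨h1, hne⟩)
        rcases ih with h | h | h
        · exact Or.inl (hab.trans h)
        · exact Or.inr (Or.inl ⟨hab.trans h.1, h.2⟩)
        · exact Or.inr (Or.inr ⟨hab.trans h.1, h.2⟩)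
  · have hm : openGraph ω ≤ openGraph (insert s(x, y) ω) := openGraph_mono (subset_insert _ _)
    have hxy' : (openGraph (insert s(x, y) ω)).Reachable x y :=
      SimpleGraph.Adj.reachable (openGraph_adj.mpr ⟨mem_insert_self _ _, hxy⟩)
    rintro (h | h | h)
    · exact h.mono hm
    · exact (h.1.mono hm).trans (hxy'.trans (h.2.mono hm))
    · exact (h.1.mono hm).trans (hxy'.symm.trans (h.2.mono hm))

open Classical in
lemma clusters_eq (ω : Finset (Sym2 (ℤ × ℤ))) :
    clusters V ω = (V.image (fun v => (openGraph ω).connectedComponentMk v)).card := by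
  unfold clusters
  rw [← Set.ncard_coe_finset]
  congr 1
  ext C; simp

lemma clusters_insert_of_reach {x y : ℤ × ℤ} (hxy : x ≠ y)
    (h : (openGraph ω).Reachable x y) : clusters V (insert s(x, y) ω) = clusters V ω := by
  classical
  rw [clusters_eq, clusters_eq]
  symm
  apply card_bij (fun C _ => C.map (SimpleGraph.Hom.ofLE (openGraph_mono (subset_insert s(x, y) ω))))
  · intro C hC
    simp only [mem_image] at hC ⊢
    obtain ⟨v, hv, rfl⟩ := hC
    exact ⟨v, hv, rfl⟩
  · intro C hC C' hC' he
    simp only [mem_image] at hC hC'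
    obtain ⟨v, hv, rfl⟩ := hC
    obtain ⟨v', hv', rfl⟩ := hC'
    simp only [SimpleGraph.ConnectedComponent.map_mk, SimpleGraph.ConnectedComponent.eq] at he ⊢
    have he' := (reach_insert hxy).mp he
    simp only [SimpleGraph.Hom.coe_ofLE, id_eq] at he'
    rcases he' with h1 | h1 | h1
    · exact h1
    · exact h1.1.trans (h.trans h1.2)
    · exact h1.1.trans (h.symm.trans h1.2)
  · intro C hC
    simp only [mem_image] at hC
    obtain ⟨v, hv, rfl⟩ := hC
    exact ⟨(openGraph ω).connectedComponentMk v, mem_image_of_mem _ hv, rfl⟩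

lemma clusters_insert_of_not_reach {x y : ℤ × ℤ} (hxy : x ≠ y) (hx : x ∈ V) (hy : y ∈ V)
    (h : ¬ (openGraph ω).Reachable x y) : clusters V ω = clusters V (insert s(x, y) ω) + 1 := by
  classical
  rw [clusters_eq, clusters_eq]
  have hmem : (openGraph ω).connectedComponentMk y ∈
      V.image (fun v => (openGraph ω).connectedComponentMk v) := mem_image_of_mem _ hy
  rw [← card_erase_add_one hmem]
  congr 1
  apply card_bij (fun C _ => C.map (SimpleGraph.Hom.ofLE (openGraph_mono (subset_insert s(x, y) ω))))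
  · intro C hC
    rw [mem_erase] at hC
    simp only [mem_image] at hC ⊢
    obtain ⟨_, v, hv, rfl⟩ := hC
    exact ⟨v, hv, rfl⟩
  · intro C hC C' hC' he
    rw [mem_erase] at hC hC'
    simp only [mem_image] at hC hC'
    obtain ⟨hn, v, hv, rfl⟩ := hC
    obtain ⟨hn', v', hv', rfl⟩ := hC'
    simp only [SimpleGraph.ConnectedComponent.map_mk, SimpleGraph.ConnectedComponent.eq, ne_eq] at he hn hn' ⊢
    have he' := (reach_insert hxy).mp he
    simp only [SimpleGraph.Hom.coe_ofLE, id_eq] at he'
    rcases he' with h1 | h1 | h1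
    · exact h1
    · exact absurd h1.2.symm hn'
    · exact absurd h1.1 hn
  · intro C hC
    simp only [mem_image] at hC
    obtain ⟨v, hv, rfl⟩ := hC
    by_cases hvy : (openGraph ω).Reachable v y
    · refine ⟨(openGraph ω).connectedComponentMk x, ?_, ?_⟩
      · rw [mem_erase]
        refine ⟨?_, mem_image_of_mem _ hx⟩
        simp only [ne_eq, SimpleGraph.ConnectedComponent.eq]
        exact h
      · simp only [SimpleGraph.ConnectedComponent.map_mk, SimpleGraph.ConnectedComponent.eq]
        refine (reach_insert hxy).mpr ?_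
        simp only [SimpleGraph.Hom.coe_ofLE, id_eq]
        exact Or.inr (Or.inl ⟨SimpleGraph.Reachable.refl _, hvy.symm⟩)
    · refine ⟨(openGraph ω).connectedComponentMk v, ?_, rfl⟩
      rw [mem_erase]
      refine ⟨?_, mem_image_of_mem _ hv⟩
      simp only [ne_eq, SimpleGraph.ConnectedComponent.eq]
      exact hvy

lemma sd_ratio {q : ℝ} (hq : 0 < q) : selfDual q / (1 - selfDual q) = √q := by
  have : 0 < √q := Real.sqrt_pos.mpr hq
  unfold selfDual
  field_simp
  ring

lemma weight_insert_of_reach {q : ℝ} (hq : 0 < q) {x y : ℤ × ℤ} (hxy : x ≠ y)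
    (hn : s(x, y) ∉ ω) (h : (openGraph ω).Reachable x y) :
    fkWeight (selfDual q) q V (insert s(x, y) ω) = √q * fkWeight (selfDual q) q V ω := by
  unfold fkWeight
  rw [sd_ratio hq, card_insert_of_notMem hn, clusters_insert_of_reach hxy h, pow_succ]
  ring

lemma weight_insert_of_not_reach {q : ℝ} (hq : 0 < q) {x y : ℤ × ℤ} (hxy : x ≠ y) (hx : x ∈ V)
    (hy : y ∈ V) (hn : s(x, y) ∉ ω) (h : ¬ (openGraph ω).Reachable x y) :
    fkWeight (selfDual q) q V ω = √q * fkWeight (selfDual q) q V (insert s(x, y) ω) := by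
  unfold fkWeight
  rw [sd_ratio hq, card_insert_of_notMem hn, clusters_insert_of_not_reach hxy hx hy h, pow_succ,
    pow_succ]
  have : √q * √q = q := Real.mul_self_sqrt hq.le
  linear_combination (√q ^ #ω * q ^ clusters V (insert s(x, y) ω)) * (-this)

lemma weight_pos {q : ℝ} (hq : 0 < q) : 0 < fkWeight (selfDual q) q V ω := by
  unfold fkWeight
  rw [sd_ratio hq]
  have : 0 < √q := Real.sqrt_pos.mpr hq
  positivity

end Pool.Agent.H95.SumRule
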