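import Mathlib
import Pool.Agent.H95.SumRule.Unit

namespace Pool.Agent.H95.SumRule

/-- signed change of the octant index between adjacent vectors -/
def dlt (v w : ℤ × ℤ) : ℤ :=
  if (oct w - oct v) % 8 = 0 then 0 else if (oct w - oct v) % 8 = 1 then 1 else -1

lemma dlt_bound (v w : ℤ × ℤ) : -1 ≤ dlt v w ∧ dlt v w ≤ 1 := by
  unfold dlt; split_ifs <;> omega

lemma oct_adj {v w : ℤ × ℤ} (hv : ¬ (v.1 = 0 ∧ v.2 = 0)) (hw : ¬ (w.1 = 0 ∧ w.2 = 0))
    (h : IsUnit2 (w - v)) :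
    (oct w - oct v) % 8 = 0 ∨ (oct w - oct v) % 8 = 1 ∨ (oct w - oct v) % 8 = 7 := by
  obtain ⟨a, b⟩ := v
  obtain ⟨c, d⟩ := w
  simp only [IsUnit2, Prod.fst_sub, Prod.snd_sub] at h
  simp only at hv hw
  unfold oct
  simp only
  split_ifs <;> omega

lemma dlt_modEq {v w : ℤ × ℤ} (hv : ¬ (v.1 = 0 ∧ v.2 = 0)) (hw : ¬ (w.1 = 0 ∧ w.2 = 0))
    (h : IsUnit2 (w - v)) : (oct w - oct v - dlt v w) % 8 = 0 := by
  have := oct_adj hv hw h
  unfold dlt
  split_ifs <;> omega

/-- with a lift of the octant index that does not jump, `dlt` is the difference of lifts -/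
lemma dlt_eq_of_lift {v w : ℤ × ℤ} (hv : ¬ (v.1 = 0 ∧ v.2 = 0)) (hw : ¬ (w.1 = 0 ∧ w.2 = 0))
    (h : IsUnit2 (w - v)) {lv lw : ℤ} (h1 : (lv - oct v) % 8 = 0) (h2 : (lw - oct w) % 8 = 0)
    (h3 : lw - lv ≤ 6) (h4 : lv - lw ≤ 6) : dlt v w = lw - lv := by
  have := dlt_modEq hv hw h
  have := dlt_bound v w
  omega

lemma square_rel {v u u' : ℤ × ℤ} (h1 : IsUnit2 u) (h2 : IsUnit2 u')
    (n0 : ¬ (v.1 = 0 ∧ v.2 = 0)) (n1 : ¬ ((v + u).1 = 0 ∧ (v + u).2 = 0))
    (n2 : ¬ ((v + u').1 = 0 ∧ (v + u').2 = 0)) (n3 : ¬ ((v + u + u').1 = 0 ∧ (v + u + u').2 = 0)) :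
    dlt v (v + u) + dlt (v + u) (v + u + u') = dlt v (v + u') + dlt (v + u') (v + u + u') := by
  have a1 := dlt_modEq n0 n1 (by simpa using h1)
  have a2 := dlt_modEq n1 n3 (by simpa using h2)
  have a3 := dlt_modEq n0 n2 (by simpa using h2)
  have a4 := dlt_modEq n2 n3 (by
    have : v + u + u' - (v + u') = u := by abel
    rw [this]; exact h1)
  have b1 := dlt_bound v (v + u)
  have b2 := dlt_bound (v + u) (v + u + u')
  have b3 := dlt_bound v (v + u')
  have b4 := dlt_bound (v + u') (v + u + u')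
  omega

/-- Discrete Hopf theorem for simple lattice paths -/
theorem hopf (γ : ℕ → ℤ × ℤ) (N : ℕ) (hstep : ∀ i < N, IsUnit2 (γ (i + 1) - γ i))
    (hinj : ∀ i j, i < j → j ≤ N → γ i ≠ γ j) :
    ∑ i ∈ Finset.range (N - 1), (dlt (γ (i + 1) - γ i) (γ (i + 2) - γ i)
        + dlt (γ (i + 2) - γ i) (γ (i + 2) - γ (i + 1)))
      = ∑ t ∈ Finset.range (N - 1), dlt (γ (t + 1) - γ 0) (γ (t + 2) - γ 0)
        + ∑ s ∈ Finset.range (N - 1), dlt (γ N - γ s) (γ N - γ (s + 1)) := by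
  have nz : ∀ i j, i < j → j ≤ N → ¬ ((γ j - γ i).1 = 0 ∧ (γ j - γ i).2 = 0) := by
    intro i j hij hj hc
    apply hinj i j hij hj
    have h1 : γ j - γ i = 0 := Prod.ext hc.1 hc.2
    exact (sub_eq_zero.mp h1).symm
  induction N with
  | zero => simp
  | succ N ih =>
    rcases Nat.eq_zero_or_pos N with h0 | hpos
    · subst h0; simp
    have ih' := ih (fun i hi => hstep i (by omega)) (fun i j hij hj => hinj i j hij (by omega))
      (fun i j hij hj => nz i j hij (by omega))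
    obtain ⟨M, rfl⟩ : ∃ M, N = M + 1 := ⟨N - 1, by omega⟩
    simp only [Nat.add_sub_cancel] at ih' ⊢
    have key : ∑ s ∈ Finset.range M, dlt (γ (M + 1 + 1) - γ s) (γ (M + 1 + 1) - γ (s + 1))
        = ∑ s ∈ Finset.range M, dlt (γ (M + 1) - γ s) (γ (M + 1) - γ (s + 1))
          + (dlt (γ (M + 1) - γ M) (γ (M + 2) - γ M) - dlt (γ (M + 1) - γ 0) (γ (M + 2) - γ 0)) := by
      rw [← Finset.sum_range_sub (fun s => dlt (γ (M + 1) - γ s) (γ (M + 2) - γ s)) M,
        ← Finset.sum_add_distrib]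
      apply Finset.sum_congr rfl
      intro s hs
      have hs' : s < M := Finset.mem_range.mp hs
      have e := square_rel (v := γ (M + 1) - γ s) (u := γ (M + 2) - γ (M + 1))
        (u' := -(γ (s + 1) - γ s)) (hstep (M + 1) (by omega)) (isUnit2_neg (hstep s (by omega)))
        (nz s (M + 1) (by omega) (by omega))
        (by
          have : γ (M + 1) - γ s + (γ (M + 2) - γ (M + 1)) = γ (M + 2) - γ s := by abel
          rw [this]; exact nz s (M + 2) (by omega) (by omega))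
        (by
          have : γ (M + 1) - γ s + -(γ (s + 1) - γ s) = γ (M + 1) - γ (s + 1) := by abel
          rw [this]; exact nz (s + 1) (M + 1) (by omega) (by omega))
        (by
          have : γ (M + 1) - γ s + (γ (M + 2) - γ (M + 1)) + -(γ (s + 1) - γ s)
            = γ (M + 2) - γ (s + 1) := by abel
          rw [this]; exact nz (s + 1) (M + 2) (by omega) (by omega))
      have e1 : γ (M + 1) - γ s + (γ (M + 2) - γ (M + 1)) = γ (M + 2) - γ s := by abel
      have e2 : γ (M + 1) - γ s + -(γ (s + 1) - γ s) = γ (M + 1) - γ (s + 1) := by abel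
      rw [e1, e2] at e
      have e3 : γ (M + 2) - γ s + -(γ (s + 1) - γ s) = γ (M + 2) - γ (s + 1) := by abel
      rw [e3] at e
      have e4 : M + 1 + 1 = M + 2 := rfl
      rw [e4]
      linarith
    rw [Finset.sum_range_succ, Finset.sum_range_succ _ M, Finset.sum_range_succ _ M, key]
    have e4 : M + 1 + 1 = M + 2 := rfl
    rw [e4]
    linarith

end Pool.Agent.H95.SumRule
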