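import Mathlib
import Pool.Agent.H95.SumRule.Corner
import Pool.Agent.H95.SumRule.Hopf
import Pool.Agent.H95.SumRule.Orbit

namespace Pool.Agent.H95.SumRule

open Function Finset

lemma oct_range (v : ℤ × ℤ) : 0 ≤ oct v ∧ oct v ≤ 7 := by
  unfold oct; split_ifs <;> omega

lemma oct_up {v : ℤ × ℤ} (h : 0 ≤ v.2) (hv : ¬ (v.1 = 0 ∧ v.2 = 0)) : oct v ≤ 4 := by
  unfold oct; split_ifs <;> omega

/-- the total turning up to time `N`, from lifts of the octant index at both ends -/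
theorem umlauf {ω : Finset (Sym2 (ℤ × ℤ))} {c0 : Corner} {T N : ℕ}
    (hT : Cyc (nxt ω) c0 T) (h0 : c0.2 = Dir.E) (hy0 : c0.1.2 = 0) (hN : 0 < N) (hNT : N < T)
    (hy : ∀ n ≤ N, 0 ≤ (pos ((nxt ω)^[n] c0)).2) (L : ℤ × ℤ → ℤ)
    (hL : ∀ s < N, (L (pos ((nxt ω)^[N] c0) - pos ((nxt ω)^[s] c0))
        - oct (pos ((nxt ω)^[N] c0) - pos ((nxt ω)^[s] c0))) % 8 = 0)
    (hL2 : ∀ s, s + 1 < N →
        L (pos ((nxt ω)^[N] c0) - pos ((nxt ω)^[s+1] c0)) - L (pos ((nxt ω)^[N] c0) - pos ((nxt ω)^[s] c0)) ≤ 6 ∧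
        L (pos ((nxt ω)^[N] c0) - pos ((nxt ω)^[s] c0)) - L (pos ((nxt ω)^[N] c0) - pos ((nxt ω)^[s+1] c0)) ≤ 6)
    (hL3 : L (pos ((nxt ω)^[N] c0) - pos c0) = oct (pos ((nxt ω)^[N] c0) - pos c0)) :
    2 * tt (nxt ω) (eps ω) c0 N + 1 = L (pos ((nxt ω)^[N] c0) - pos ((nxt ω)^[N-1] c0))
        + eps ω ((nxt ω)^[N-1] c0) ∧
    (2 * tt (nxt ω) (eps ω) c0 N + 1 - ((nxt ω)^[N] c0).2.ang) % 8 = 0 := by
  set f := nxt ω with hf
  set γ : ℕ → ℤ × ℤ := fun n => pos (f^[n] c0) with hγ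
  have hinj := nxt_injective ω
  have hstep : ∀ i, IsUnit2 (γ (i + 1) - γ i) := by
    intro i
    simp only [hγ, iterate_succ_apply']
    exact (pos_step ω _).1
  have hdist : ∀ i j, i < j → j ≤ N → γ i ≠ γ j := by
    intro i j hij hj he
    have := pos_injective he
    have := hT.inj hinj (m := i) (n := j) (by omega) (by omega) this
    omega
  have nz : ∀ i j, i < j → j ≤ N → ¬ ((γ j - γ i).1 = 0 ∧ (γ j - γ i).2 = 0) := by
    intro i j hij hj hc
    apply hdist i j hij hj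
    have h1 : γ j - γ i = 0 := Prod.ext hc.1 hc.2
    exact (sub_eq_zero.mp h1).symm
  have H := hopf γ N (fun i _ => hstep i) hdist
  obtain ⟨M, rfl⟩ : ∃ M, N = M + 1 := ⟨N - 1, by omega⟩
  simp only [Nat.add_sub_cancel] at H ⊢
  -- octant of steps
  have hoct : ∀ i, (oct (γ (i + 1) - γ i) - (f^[i] c0).2.ang - eps ω (f^[i] c0)) % 8 = 0 ∧
      ((f^[i + 1] c0).2.ang - (f^[i] c0).2.ang - 2 * eps ω (f^[i] c0)) % 8 = 0 := by
    intro i
    have := pos_step ω (f^[i] c0)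
    simp only [hγ, iterate_succ_apply']
    exact ⟨this.2.1, this.2.2⟩
  have hturn : ∀ i ∈ range M, (dlt (γ (i + 1) - γ i) (γ (i + 2) - γ i)
        + dlt (γ (i + 2) - γ i) (γ (i + 2) - γ (i + 1))) = eps ω (f^[i] c0) + eps ω (f^[i+1] c0) := by
    intro i hi
    have hi' : i < M := mem_range.mp hi
    have a1 := dlt_modEq (v := γ (i + 1) - γ i) (w := γ (i + 2) - γ i)
      (nz i (i + 1) (by omega) (by omega)) (nz i (i + 2) (by omega) (by omega))
      (by have : γ (i + 2) - γ i - (γ (i + 1) - γ i) = γ (i + 1 + 1) - γ (i + 1) := by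
            rw [show i + 1 + 1 = i + 2 by rfl]; abel
          rw [this]; exact hstep (i + 1))
    have a2 := dlt_modEq (v := γ (i + 2) - γ i) (w := γ (i + 2) - γ (i + 1))
      (nz i (i + 2) (by omega) (by omega)) (nz (i + 1) (i + 2) (by omega) (by omega))
      (by have : γ (i + 2) - γ (i + 1) - (γ (i + 2) - γ i) = -(γ (i + 1) - γ i) := by abel
          rw [this]; exact isUnit2_neg (hstep i))
    have b1 := dlt_bound (γ (i + 1) - γ i) (γ (i + 2) - γ i)
    have b2 := dlt_bound (γ (i + 2) - γ i) (γ (i + 2) - γ (i + 1))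
    have o1 := hoct i
    have o2 := hoct (i + 1)
    rw [show i + 1 + 1 = i + 2 by rfl] at o2
    have e1 := eps_cases ω (f^[i] c0)
    have e2 := eps_cases ω (f^[i+1] c0)
    omega
  rw [sum_congr rfl hturn] at H
  -- the two boundary sums
  have S1 : ∑ t ∈ range M, dlt (γ (t + 1) - γ 0) (γ (t + 2) - γ 0)
      = oct (γ (M + 1) - γ 0) - oct (γ 1 - γ 0) := by
    rw [← Finset.sum_range_sub (fun t => oct (γ (t + 1) - γ 0)) M]
    apply sum_congr rfl
    intro t ht
    have ht' : t < M := mem_range.mp ht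
    have y0 : (γ 0).2 = 0 := by
      simp only [hγ, iterate_zero, id_eq, pos]
      rw [hy0, h0]; simp [off]
    have yt : ∀ n, n ≤ M + 1 → 0 ≤ (γ n - γ 0).2 := by
      intro n hn
      have := hy n hn
      rw [Prod.snd_sub, y0]
      simpa [hγ] using this
    have n1 := nz 0 (t + 1) (by omega) (by omega)
    have n2 := nz 0 (t + 2) (by omega) (by omega)
    have r1 := oct_range (γ (t + 1) - γ 0)
    have r2 := oct_range (γ (t + 2) - γ 0)
    have r3 := oct_up (yt (t + 1) (by omega)) n1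
    have r4 := oct_up (yt (t + 2) (by omega)) n2
    exact dlt_eq_of_lift (lv := oct (γ (t + 1) - γ 0)) (lw := oct (γ (t + 2) - γ 0)) n1 n2
      (by have : γ (t + 2) - γ 0 - (γ (t + 1) - γ 0) = γ (t + 1 + 1) - γ (t + 1) := by
            rw [show t + 1 + 1 = t + 2 by rfl]; abel
          rw [this]; exact hstep (t + 1)) (by simp) (by simp) (by omega) (by omega)
  have S2 : ∑ s ∈ range M, dlt (γ (M + 1) - γ s) (γ (M + 1) - γ (s + 1))
      = L (γ (M + 1) - γ M) - L (γ (M + 1) - γ 0) := by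
    rw [← Finset.sum_range_sub (fun s => L (γ (M + 1) - γ s)) M]
    apply sum_congr rfl
    intro s hs
    have hs' : s < M := mem_range.mp hs
    have n1 := nz s (M + 1) (by omega) (by omega)
    have n2 := nz (s + 1) (M + 1) (by omega) (by omega)
    have l1 := hL s (by omega)
    have l2 := hL (s + 1) (by omega)
    have l3 := hL2 s (by omega)
    exact dlt_eq_of_lift n1 n2
      (by have : γ (M + 1) - γ (s + 1) - (γ (M + 1) - γ s) = -(γ (s + 1) - γ s) := by abel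
          rw [this]; exact isUnit2_neg (hstep s)) l1 l2 (by simpa [hγ] using l3.1) (by simpa [hγ] using l3.2)
  rw [S1, S2] at H
  have S3 : ∑ i ∈ range M, (eps ω (f^[i] c0) + eps ω (f^[i+1] c0))
      = 2 * tt f (eps ω) c0 (M + 1) - eps ω c0 - eps ω (f^[M] c0) := by
    rw [sum_add_distrib]
    have q1 : ∑ i ∈ range M, eps ω (f^[i] c0) = tt f (eps ω) c0 (M + 1) - eps ω (f^[M] c0) := by
      unfold tt; rw [sum_range_succ]; ring
    have q2 : ∑ i ∈ range M, eps ω (f^[i+1] c0) = tt f (eps ω) c0 (M + 1) - eps ω c0 := by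
      unfold tt; rw [sum_range_succ']; simp
    rw [q1, q2]; ring
  rw [S3] at H
  have hu0 : oct (γ 1 - γ 0) = 1 + eps ω c0 := by
    have o := (hoct 0).1
    simp only [iterate_zero, id_eq, zero_add] at o
    rw [h0] at o
    have r := oct_range (γ 1 - γ 0)
    have e1 := eps_cases ω c0
    have : Dir.E.ang = 1 := rfl
    rw [this] at o
    rcases e1 with e1 | e1 <;> rw [e1] at o ⊢ <;> omega
  have hL3' : L (γ (M + 1) - γ 0) = oct (γ (M + 1) - γ 0) := by simpa [hγ] using hL3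
  rw [hu0, hL3'] at H
  have R1 : 2 * tt f (eps ω) c0 (M + 1) + 1 = L (γ (M + 1) - γ M) + eps ω (f^[M] c0) := by linarith
  refine ⟨R1, ?_⟩
  rw [R1]
  have l := hL M (by omega)
  have o := hoct M
  have l' : (L (γ (M + 1) - γ M) - oct (γ (M + 1) - γ M)) % 8 = 0 := by simpa [hγ] using l
  omega

end Pool.Agent.H95.SumRule
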