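import Mathlib
import Pool.Agent.H95.SumRule.Umlauf

namespace Pool.Agent.H95.SumRule

open Function Finset

/-- the domain under the roof `h`, as a predicate -/
def InV (m : ℤ) (h : ℤ → ℤ) (v : ℤ × ℤ) : Prop := 0 ≤ v.1 ∧ v.1 ≤ m ∧ 0 ≤ v.2 ∧ v.2 ≤ h v.1

lemma off_cases (d : Dir) : ((off d).1 = 0 ∨ (off d).1 = 1) ∧ ((off d).2 = 0 ∨ (off d).2 = 1) := by
  cases d <;> simp [off]

lemma pos1 (c : Corner) : (pos c).1 = 2 * c.1.1 + (off c.2).1 := rfl
lemma pos2 (c : Corner) : (pos c).2 = 2 * c.1.2 + (off c.2).2 := rfl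
lemma off_E : off Dir.E = (1, 0) := rfl
lemma off_N : off Dir.N = (1, 1) := rfl
lemma off_W : off Dir.W = (0, 1) := rfl
lemma off_S : off Dir.S = (0, 0) := rfl

lemma pos_y_nonneg {m : ℤ} {h : ℤ → ℤ} {c : Corner} (hc : InV m h c.1) : 0 ≤ (pos c).2 := by
  have := off_cases c.2
  obtain ⟨_, _, h3, _⟩ := hc
  simp only [pos]; omega

def LE' (v : ℤ × ℤ) : ℤ := if 6 ≤ oct v then oct v - 8 else oct v
def LN (v : ℤ × ℤ) : ℤ := if oct v = 7 then -1 else oct v
def LSr (v : ℤ × ℤ) : ℤ := if oct v = 0 then 0 else oct v - 8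
def LSl (v : ℤ × ℤ) : ℤ := if oct v = 0 then 8 else oct v
def LF (v : ℤ × ℤ) : ℤ := if oct v ≤ 2 then oct v + 8 else oct v

lemma LE_mod (v : ℤ × ℤ) : (LE' v - oct v) % 8 = 0 := by unfold LE'; split_ifs <;> omega
lemma LN_mod (v : ℤ × ℤ) : (LN v - oct v) % 8 = 0 := by unfold LN; split_ifs <;> omega
lemma LSr_mod (v : ℤ × ℤ) : (LSr v - oct v) % 8 = 0 := by unfold LSr; split_ifs <;> omega
lemma LSl_mod (v : ℤ × ℤ) : (LSl v - oct v) % 8 = 0 := by unfold LSl; split_ifs <;> omega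
lemma LF_mod (v : ℤ × ℤ) : (LF v - oct v) % 8 = 0 := by unfold LF; split_ifs <;> omega

set_option maxHeartbeats 2000000 in
lemma LE_adj {v w : ℤ × ℤ} (h : IsUnit2 (w - v))
    (hv : ¬ ((v.1 = -1 ∨ v.1 = -2) ∧ v.2 ≤ 0)) (hw : ¬ ((w.1 = -1 ∨ w.1 = -2) ∧ w.2 ≤ 0)) :
    LE' w - LE' v ≤ 6 ∧ LE' v - LE' w ≤ 6 := by
  obtain ⟨a, b⟩ := v
  obtain ⟨c, d⟩ := w
  simp only [IsUnit2, Prod.fst_sub, Prod.snd_sub] at h
  simp only at hv hw
  simp only [LE', oct]
  split_ifs <;> omega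

set_option maxHeartbeats 2000000 in
lemma LW_adj {v w : ℤ × ℤ} (h : IsUnit2 (w - v))
    (hv : ¬ ((v.1 = 1 ∨ v.1 = 2) ∧ v.2 ≤ 0)) (hw : ¬ ((w.1 = 1 ∨ w.1 = 2) ∧ w.2 ≤ 0)) :
    LN w - LN v ≤ 6 ∧ LN v - LN w ≤ 6 := by
  obtain ⟨a, b⟩ := v
  obtain ⟨c, d⟩ := w
  simp only [IsUnit2, Prod.fst_sub, Prod.snd_sub] at h
  simp only at hv hw
  simp only [LN, oct]
  split_ifs <;> omega

lemma LN_range {v : ℤ × ℤ} (hv : ¬ (v.1 = 0 ∧ v.2 < 0)) (h0 : ¬ (v.1 = 0 ∧ v.2 = 0)) :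
    -1 ≤ LN v ∧ LN v ≤ 5 := by
  unfold LN oct; split_ifs <;> omega

lemma LW_range (v : ℤ × ℤ) : -1 ≤ LN v ∧ LN v ≤ 6 := by
  have := oct_range v
  unfold LN; split_ifs <;> omega

lemma LE_range (v : ℤ × ℤ) : -2 ≤ LE' v ∧ LE' v ≤ 5 := by
  have := oct_range v
  unfold LE'; split_ifs <;> omega

lemma LSr_range {v : ℤ × ℤ} (hv : v.2 ≤ 0) : -4 ≤ LSr v ∧ LSr v ≤ 0 := by
  unfold LSr oct; split_ifs <;> omega

lemma LSl_range {v : ℤ × ℤ} (hv : v.2 ≤ 0) : 4 ≤ LSl v ∧ LSl v ≤ 8 := by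
  unfold LSl oct; split_ifs <;> omega

lemma LF_range {v : ℤ × ℤ} (hv : ¬ (v.1 = 0 ∧ 0 < v.2)) (h0 : ¬ (v.1 = 0 ∧ v.2 = 0)) :
    3 ≤ LF v ∧ LF v ≤ 9 := by
  unfold LF oct; split_ifs <;> omega

section
variable {m : ℤ} {h : ℤ → ℤ} {ω : Finset (Sym2 (ℤ × ℤ))} {b : ℤ} {T N : ℕ}

lemma D_ne {c0 : Corner} (hT : Cyc (nxt ω) c0 T) (hNT : N < T) {s : ℕ} (hs : s < N) :
    ¬ ((pos ((nxt ω)^[N] c0) - pos ((nxt ω)^[s] c0)).1 = 0 ∧
      (pos ((nxt ω)^[N] c0) - pos ((nxt ω)^[s] c0)).2 = 0) := by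
  intro hc
  have h1 : pos ((nxt ω)^[N] c0) - pos ((nxt ω)^[s] c0) = 0 := Prod.ext hc.1 hc.2
  have h2 := pos_injective (sub_eq_zero.mp h1)
  have := hT.inj (nxt_injective ω) (m := N) (n := s) (by omega) (by omega) h2
  omega

lemma D_unit {c0 : Corner} (s : ℕ) :
    IsUnit2 ((pos ((nxt ω)^[N] c0) - pos ((nxt ω)^[s+1] c0)) -
      (pos ((nxt ω)^[N] c0) - pos ((nxt ω)^[s] c0))) := by
  have h1 : (pos ((nxt ω)^[N] c0) - pos ((nxt ω)^[s+1] c0)) -
      (pos ((nxt ω)^[N] c0) - pos ((nxt ω)^[s] c0))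
      = -(pos ((nxt ω)^[s+1] c0) - pos ((nxt ω)^[s] c0)) := by abel
  rw [h1, iterate_succ_apply']
  exact isUnit2_neg (pos_step ω _).1

variable (hT : Cyc (nxt ω) ((b, 0), Dir.E) T) (hNT : N < T)
  (hV : ∀ n, InV m h ((nxt ω)^[n] ((b, 0), Dir.E)).1)

include hT hNT hV

lemma turn_N {x : ℤ × ℤ} (hc : (nxt ω)^[N] ((b, 0), Dir.E) = (x, Dir.N)) (hx : ¬ InV m h (x.1, x.2 + 1)) :
    tt (nxt ω) (eps ω) ((b, 0), Dir.E) N = 1 := by
  set c0 : Corner := ((b, 0), Dir.E) with hc0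
  have hN : 0 < N := by
    rcases Nat.eq_zero_or_pos N with h0 | h0
    · subst h0; simp [hc0] at hc
    · exact h0
  have xV := hV N
  rw [hc] at xV
  have key : ∀ s < N, ¬ ((pos ((nxt ω)^[N] c0) - pos ((nxt ω)^[s] c0)).1 = 0 ∧
      (pos ((nxt ω)^[N] c0) - pos ((nxt ω)^[s] c0)).2 < 0) := by
    intro s hs hcon
    have v := hV s
    rw [hc] at hcon
    have o := off_cases ((nxt ω)^[s] c0).2
    simp only [Prod.fst_sub, Prod.snd_sub, pos1, pos2, off_E, off_N, off_W, off_S, InV] at hcon v xV hx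
    have e1 : ((nxt ω)^[s] c0).1.1 = x.1 := by omega
    rw [e1] at v
    omega
  have r := umlauf hT rfl rfl hN hNT (fun n _ => pos_y_nonneg (hV n)) LN
    (fun s _ => LN_mod _)
    (fun s hs => by
      have r1 := LN_range (key s (by omega)) (D_ne hT hNT (by omega : s < N))
      have r2 := LN_range (key (s+1) (by omega)) (D_ne hT hNT (by omega : s + 1 < N))
      omega)
    (by
      have := D_ne hT hNT hN
      simp only [iterate_zero, id_eq] at this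
      have r1 := oct_up (v := pos ((nxt ω)^[N] c0) - pos c0) (by
        rw [hc]; simp only [pos, off, hc0, Prod.snd_sub, InV] at xV ⊢; omega) this
      unfold LN; rw [if_neg (by omega)])
  obtain ⟨r1, r2⟩ := r
  have r3 := LN_range (key (N-1) (by omega)) (D_ne hT hNT (by omega : N - 1 < N))
  have r4 := eps_cases ω ((nxt ω)^[N-1] c0)
  rw [hc] at r2
  simp only [Dir.ang] at r2
  omega

lemma turn_E {x : ℤ × ℤ} (hc : (nxt ω)^[N] ((b, 0), Dir.E) = (x, Dir.E)) (hx : ¬ InV m h (x.1 + 1, x.2)) :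
    tt (nxt ω) (eps ω) ((b, 0), Dir.E) N = 0 := by
  set c0 : Corner := ((b, 0), Dir.E) with hc0
  rcases Nat.eq_zero_or_pos N with h0 | hN
  · subst h0; simp [tt]
  have xV := hV N
  rw [hc] at xV
  have key : ∀ s < N, ¬ (((pos ((nxt ω)^[N] c0) - pos ((nxt ω)^[s] c0)).1 = -1 ∨
      (pos ((nxt ω)^[N] c0) - pos ((nxt ω)^[s] c0)).1 = -2) ∧
      (pos ((nxt ω)^[N] c0) - pos ((nxt ω)^[s] c0)).2 ≤ 0) := by
    intro s hs hcon
    have v := hV s
    rw [hc] at hcon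
    have o := off_cases ((nxt ω)^[s] c0).2
    simp only [Prod.fst_sub, Prod.snd_sub, pos1, pos2, off_E, off_N, off_W, off_S, InV] at hcon v xV hx
    have e1 : ((nxt ω)^[s] c0).1.1 = x.1 + 1 := by omega
    rw [e1] at v
    omega
  have r := umlauf hT rfl rfl hN hNT (fun n _ => pos_y_nonneg (hV n)) LE'
    (fun s _ => LE_mod _)
    (fun s hs => LE_adj (D_unit s) (key s (by omega)) (key (s+1) (by omega)))
    (by
      have := D_ne hT hNT hN
      simp only [iterate_zero, id_eq] at this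
      have r1 := oct_up (v := pos ((nxt ω)^[N] c0) - pos c0) (by
        rw [hc]; simp only [pos, off, hc0, Prod.snd_sub, InV] at xV ⊢; omega) this
      unfold LE'; rw [if_neg (by omega)])
  obtain ⟨r1, r2⟩ := r
  have r3 := LE_range (pos ((nxt ω)^[N] c0) - pos ((nxt ω)^[N-1] c0))
  have r4 := eps_cases ω ((nxt ω)^[N-1] c0)
  rw [hc] at r2
  simp only [Dir.ang] at r2
  omega

lemma turn_W {x : ℤ × ℤ} (hc : (nxt ω)^[N] ((b, 0), Dir.E) = (x, Dir.W)) (hx : ¬ InV m h (x.1 - 1, x.2)) :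
    tt (nxt ω) (eps ω) ((b, 0), Dir.E) N = 2 := by
  set c0 : Corner := ((b, 0), Dir.E) with hc0
  have hN : 0 < N := by
    rcases Nat.eq_zero_or_pos N with h0 | h0
    · subst h0; simp [hc0] at hc
    · exact h0
  have xV := hV N
  rw [hc] at xV
  have key : ∀ s < N, ¬ (((pos ((nxt ω)^[N] c0) - pos ((nxt ω)^[s] c0)).1 = 1 ∨
      (pos ((nxt ω)^[N] c0) - pos ((nxt ω)^[s] c0)).1 = 2) ∧
      (pos ((nxt ω)^[N] c0) - pos ((nxt ω)^[s] c0)).2 ≤ 0) := by
    intro s hs hcon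
    have v := hV s
    rw [hc] at hcon
    have o := off_cases ((nxt ω)^[s] c0).2
    simp only [Prod.fst_sub, Prod.snd_sub, pos1, pos2, off_E, off_N, off_W, off_S, InV] at hcon v xV hx
    have e1 : ((nxt ω)^[s] c0).1.1 = x.1 - 1 := by omega
    rw [e1] at v
    omega
  have r := umlauf hT rfl rfl hN hNT (fun n _ => pos_y_nonneg (hV n)) LN
    (fun s _ => LN_mod _)
    (fun s hs => LW_adj (D_unit s) (key s (by omega)) (key (s+1) (by omega)))
    (by
      have := D_ne hT hNT hN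
      simp only [iterate_zero, id_eq] at this
      have r1 := oct_up (v := pos ((nxt ω)^[N] c0) - pos c0) (by
        rw [hc]; simp only [pos, off, hc0, Prod.snd_sub, InV] at xV ⊢; omega) this
      unfold LN; rw [if_neg (by omega)])
  obtain ⟨r1, r2⟩ := r
  have r3 := LW_range (pos ((nxt ω)^[N] c0) - pos ((nxt ω)^[N-1] c0))
  have r4 := eps_cases ω ((nxt ω)^[N-1] c0)
  rw [hc] at r2
  simp only [Dir.ang] at r2
  omega

lemma turn_Sl {i : ℤ} (hc : (nxt ω)^[N] ((b, 0), Dir.E) = ((i, 0), Dir.S)) (hi : i ≤ b) :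
    tt (nxt ω) (eps ω) ((b, 0), Dir.E) N = 3 := by
  set c0 : Corner := ((b, 0), Dir.E) with hc0
  have hN : 0 < N := by
    rcases Nat.eq_zero_or_pos N with h0 | h0
    · subst h0; simp [hc0] at hc
    · exact h0
  have key : ∀ s < N, (pos ((nxt ω)^[N] c0) - pos ((nxt ω)^[s] c0)).2 ≤ 0 := by
    intro s hs
    have v := pos_y_nonneg (hV s)
    rw [hc, Prod.snd_sub]
    have : (pos ((i, 0), Dir.S)).2 = 0 := by simp [pos, off]
    rw [this]; omega
  have r := umlauf hT rfl rfl hN hNT (fun n _ => pos_y_nonneg (hV n)) LSl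
    (fun s _ => LSl_mod _)
    (fun s hs => by
      have r1 := LSl_range (key s (by omega))
      have r2 := LSl_range (key (s+1) (by omega))
      omega)
    (by
      rw [hc]
      simp only [LSl, oct, pos, off, hc0, Prod.fst_sub, Prod.snd_sub]
      split_ifs <;> omega)
  obtain ⟨r1, r2⟩ := r
  have r3 := LSl_range (key (N-1) (by omega))
  have r4 := eps_cases ω ((nxt ω)^[N-1] c0)
  rw [hc] at r2
  simp only [Dir.ang] at r2
  omega

lemma turn_Sr {i : ℤ} (hc : (nxt ω)^[N] ((b, 0), Dir.E) = ((i, 0), Dir.S)) (hi : b < i) :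
    tt (nxt ω) (eps ω) ((b, 0), Dir.E) N = -1 := by
  set c0 : Corner := ((b, 0), Dir.E) with hc0
  have hN : 0 < N := by
    rcases Nat.eq_zero_or_pos N with h0 | h0
    · subst h0; simp [hc0] at hc
    · exact h0
  have key : ∀ s < N, (pos ((nxt ω)^[N] c0) - pos ((nxt ω)^[s] c0)).2 ≤ 0 := by
    intro s hs
    have v := pos_y_nonneg (hV s)
    rw [hc, Prod.snd_sub]
    have : (pos ((i, 0), Dir.S)).2 = 0 := by simp [pos, off]
    rw [this]; omega
  have r := umlauf hT rfl rfl hN hNT (fun n _ => pos_y_nonneg (hV n)) LSr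
    (fun s _ => LSr_mod _)
    (fun s hs => by
      have r1 := LSr_range (key s (by omega))
      have r2 := LSr_range (key (s+1) (by omega))
      omega)
    (by
      rw [hc]
      simp only [LSr, oct, pos, off, hc0, Prod.fst_sub, Prod.snd_sub]
      split_ifs <;> omega)
  obtain ⟨r1, r2⟩ := r
  have r3 := LSr_range (key (N-1) (by omega))
  have r4 := eps_cases ω ((nxt ω)^[N-1] c0)
  rw [hc] at r2
  simp only [Dir.ang] at r2
  omega

lemma turn_F {i : ℤ} (hc : (nxt ω)^[N] ((b, 0), Dir.E) = ((i, 0), Dir.W)) (hi : i ≤ b)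
    (hno : ∀ n < N, (nxt ω)^[n] ((b, 0), Dir.E) ≠ ((i, 0), Dir.S)) :
    tt (nxt ω) (eps ω) ((b, 0), Dir.E) N = 2 := by
  set c0 : Corner := ((b, 0), Dir.E) with hc0
  have hN : 0 < N := by
    rcases Nat.eq_zero_or_pos N with h0 | h0
    · subst h0; simp [hc0] at hc
    · exact h0
  have key : ∀ s < N, ¬ ((pos ((nxt ω)^[N] c0) - pos ((nxt ω)^[s] c0)).1 = 0 ∧
      0 < (pos ((nxt ω)^[N] c0) - pos ((nxt ω)^[s] c0)).2) := by
    intro s hs hcon
    have v := hV s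
    rw [hc] at hcon
    have o := off_cases ((nxt ω)^[s] c0).2
    apply hno s hs
    apply pos_injective
    simp only [Prod.fst_sub, Prod.snd_sub, pos1, pos2, off_W, InV] at hcon v
    ext
    · rw [pos1, pos1]; simp only [off_S]; omega
    · rw [pos2, pos2]; simp only [off_S]; omega
  have r := umlauf hT rfl rfl hN hNT (fun n _ => pos_y_nonneg (hV n)) LF
    (fun s _ => LF_mod _)
    (fun s hs => by
      have r1 := LF_range (key s (by omega)) (D_ne hT hNT (by omega : s < N))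
      have r2 := LF_range (key (s+1) (by omega)) (D_ne hT hNT (by omega : s + 1 < N))
      omega)
    (by
      rw [hc]
      simp only [LF, oct, pos, off, hc0, Prod.fst_sub, Prod.snd_sub]
      split_ifs <;> omega)
  obtain ⟨r1, r2⟩ := r
  have r3 := LF_range (key (N-1) (by omega)) (D_ne hT hNT (by omega : N - 1 < N))
  have r4 := eps_cases ω ((nxt ω)^[N-1] c0)
  rw [hc] at r2
  simp only [Dir.ang] at r2
  omega

end

end Pool.Agent.H95.SumRule
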