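import Mathlib
import Pool.Agent.H95.SumRule.Weight
import Pool.Agent.H95.SumRule.Slots

namespace Pool.Agent.H95.SumRule

open Function Finset

lemma mem_domain {m : ℕ} {h : ℤ → ℕ} {v : ℤ × ℤ} :
    v ∈ domain m h ↔ InV m (fun i => (h i : ℤ)) v := by
  obtain ⟨i, j⟩ := v
  simp only [domain, mem_biUnion, mem_Icc, mem_image, Prod.mk.injEq, InV]
  constructor
  · rintro ⟨i', h1, j', h2, rfl, rfl⟩
    exact ⟨h1.1, h1.2, h2.1, h2.2⟩
  · rintro ⟨h1, h2, h3, h4⟩
    exact ⟨i, ⟨h1, h2⟩, j, ⟨h3, h4⟩, rfl, rfl⟩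

/-- connected outside `V` -/
def Out (V : Finset (ℤ × ℤ)) (x y : ℤ × ℤ) : Prop := ∃ p : Z2.Walk x y, ∀ z ∈ p.support, z ∉ V

lemma Out.trans {V : Finset (ℤ × ℤ)} {x y z : ℤ × ℤ} (h1 : Out V x y) (h2 : Out V y z) : Out V x z := by
  obtain ⟨p, hp⟩ := h1
  obtain ⟨q, hq⟩ := h2
  refine ⟨p.append q, ?_⟩
  intro w hw
  rcases (SimpleGraph.Walk.mem_support_append_iff _ _).mp hw with h | h
  · exact hp w h
  · exact hq w h

lemma Out.symm {V : Finset (ℤ × ℤ)} {x y : ℤ × ℤ} (h1 : Out V x y) : Out V y x := by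
  obtain ⟨p, hp⟩ := h1
  refine ⟨p.reverse, ?_⟩
  intro w hw
  exact hp w (by simpa using hw)

lemma out_step {V : Finset (ℤ × ℤ)} {x y : ℤ × ℤ} (hx : x ∉ V) (hy : y ∉ V) (h : IsUnit2 (y - x)) :
    Out V x y := by
  refine ⟨SimpleGraph.Walk.cons (show Z2.Adj x y from h) SimpleGraph.Walk.nil, ?_⟩
  intro w hw
  simp at hw
  rcases hw with rfl | rfl
  · exact hx
  · exact hy

lemma out_vert {V : Finset (ℤ × ℤ)} (i j : ℤ) (n : ℕ) (h : ∀ k : ℤ, j ≤ k → k ≤ j + n → (i, k) ∉ V) :
    Out V (i, j) (i, j + n) := by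
  induction n with
  | zero =>
    have := h j le_rfl (by simp)
    refine ⟨(SimpleGraph.Walk.nil : Z2.Walk (i, j) (i, j)).copy rfl (by simp), ?_⟩
    intro w hw
    simp at hw
    rw [hw]; exact this
  | succ n ih =>
    refine (ih (fun k h1 h2 => h k h1 (by push_cast; omega))).trans ?_
    apply out_step
    · exact h _ (by omega) (by push_cast; omega)
    · exact h _ (by omega) (by push_cast; omega)
    · simp [IsUnit2]

lemma out_horiz {V : Finset (ℤ × ℤ)} (i j : ℤ) (n : ℕ) (h : ∀ k : ℤ, i ≤ k → k ≤ i + n → (k, j) ∉ V) :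
    Out V (i, j) (i + n, j) := by
  induction n with
  | zero =>
    have := h i le_rfl (by simp)
    refine ⟨(SimpleGraph.Walk.nil : Z2.Walk (i, j) (i, j)).copy rfl (by simp), ?_⟩
    intro w hw
    simp at hw
    rw [hw]; exact this
  | succ n ih =>
    refine (ih (fun k h1 h2 => h k h1 (by push_cast; omega))).trans ?_
    apply out_step
    · exact h _ (by omega) (by push_cast; omega)
    · exact h _ (by omega) (by push_cast; omega)
    · simp [IsUnit2]

lemma out_vert' {V : Finset (ℤ × ℤ)} (i j j' : ℤ) (hj : j ≤ j')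
    (h : ∀ k : ℤ, j ≤ k → k ≤ j' → (i, k) ∉ V) : Out V (i, j) (i, j') := by
  have := out_vert (V := V) i j (j' - j).toNat (fun k h1 h2 => h k h1 (by omega))
  rwa [show j + ((j' - j).toNat : ℤ) = j' by omega] at this

lemma out_horiz' {V : Finset (ℤ × ℤ)} (i i' j : ℤ) (hi : i ≤ i')
    (h : ∀ k : ℤ, i ≤ k → k ≤ i' → (k, j) ∉ V) : Out V (i, j) (i', j) := by
  have := out_horiz (V := V) i j (i' - i).toNat (fun k h1 h2 => h k h1 (by omega))
  rwa [show i + ((i' - i).toNat : ℤ) = i' by omega] at this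

lemma out_base (m : ℕ) (h : ℤ → ℕ) (x : ℤ × ℤ) (hx : x ∉ domain m h) :
    Out (domain m h) (-1, -1) x := by
  obtain ⟨i, j⟩ := x
  rw [mem_domain] at hx
  simp only [InV, not_and, not_le] at hx
  have hrow : ∀ i' : ℤ, Out (domain m h) (-1, -1) (i', -1) := by
    intro i'
    rcases le_total (-1) i' with hi | hi
    · apply out_horiz' _ _ _ hi
      intro k _ _
      rw [mem_domain]; simp only [InV]; omega
    · apply Out.symm
      apply out_horiz' _ _ _ hi
      intro k _ _
      rw [mem_domain]; simp only [InV]; omega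
  by_cases hcol : 0 ≤ i ∧ i ≤ m
  · by_cases hj : j < 0
    · refine (hrow i).trans (Out.symm ?_)
      apply out_vert' _ _ _ (by omega)
      intro k _ _
      rw [mem_domain]; simp only [InV]; omega
    · have hj2 : (h i : ℤ) < j := hx hcol.1 hcol.2 (by omega)
      obtain ⟨H, hH⟩ : ∃ H : ℤ, j ≤ H ∧ ∀ i' : ℤ, 0 ≤ i' → i' ≤ m → (h i' : ℤ) < H := by
        refine ⟨max j (((Finset.Icc (0 : ℤ) m).sup h : ℕ) + 1 : ℤ), le_max_left _ _, ?_⟩
        intro i' h1 h2
        have : h i' ≤ (Finset.Icc (0 : ℤ) m).sup h := Finset.le_sup (mem_Icc.mpr ⟨h1, h2⟩)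
        have h3 : (h i' : ℤ) ≤ (((Finset.Icc (0 : ℤ) m).sup h : ℕ) : ℤ) := by exact_mod_cast this
        exact lt_of_lt_of_le (by omega) (le_max_right _ _)
      have s1 : Out (domain m h) (-1, -1) (-1, H) := by
        apply out_vert' _ _ _ (by have := hH.1; omega)
        intro k _ _
        rw [mem_domain]; simp only [InV]; omega
      have s2 : Out (domain m h) (-1, H) (i, H) := by
        apply out_horiz' _ _ _ (by omega)
        intro k h1 h2
        rw [mem_domain]; simp only [InV]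
        rintro ⟨h3, h4, h5, h6⟩
        have := hH.2 k h3 h4
        omega
      have s3 : Out (domain m h) (i, j) (i, H) := by
        apply out_vert' _ _ _ hH.1
        intro k h1 h2
        rw [mem_domain]; simp only [InV]
        omega
      exact (s1.trans s2).trans s3.symm
  · have hc : ∀ k : ℤ, (i, k) ∉ domain m h := by
      intro k
      rw [mem_domain]; simp only [InV]; omega
    refine (hrow i).trans ?_
    rcases le_total (-1) j with hj | hj
    · exact out_vert' _ _ _ hj (fun k _ _ => hc k)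
    · exact (out_vert' _ _ _ hj (fun k _ _ => hc k)).symm

lemma outConn_domain (m : ℕ) (h : ℤ → ℕ) : OutConn (domain m h) := by
  intro x y hx hy
  exact ((out_base m h x hx).symm).trans (out_base m h y hy)

end Pool.Agent.H95.SumRule
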