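import Mathlib
import Pool.Agent.H95.SumRule.Dom

namespace Pool.Agent.H95.SumRule

open Function Finset

set_option linter.unusedSectionVars false

lemma mem_configs {V : Finset (ℤ × ℤ)} {O ω : Finset (Sym2 (ℤ × ℤ))} :
    ω ∈ configs V O ↔ ω ⊆ edgesIn V ∧ O ⊆ ω := by
  simp [configs]

lemma eps_of_mem {ω : Finset (Sym2 (ℤ × ℤ))} {c : Corner} (h : head c ∈ ω) : eps ω c = -1 := by
  simp [eps, h]
lemma eps_of_not_mem {ω : Finset (Sym2 (ℤ × ℤ))} {c : Corner} (h : head c ∉ ω) : eps ω c = 1 := by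
  simp [eps, h]

section
variable {m : ℕ} {h : ℤ → ℕ} {a b : ℤ} {ω : Finset (Sym2 (ℤ × ℤ))}

/-- the starting corner -/
def start (b : ℤ) : Corner := ((b, 0), Dir.E)

variable (ha : 0 ≤ a) (hab : a ≤ b) (hb : b ≤ m)

include ha hab hb in
lemma src_mem : (start b).1 ∈ domain m h := by
  rw [mem_domain]; simp only [InV, start]; omega

lemma bottom_mem {i : ℤ} (h1 : 0 ≤ i) (h2 : i ≤ m) : ((i, 0) : ℤ × ℤ) ∈ domain m h := by
  rw [mem_domain]; simp only [InV]; omega

lemma below_not_mem (i : ℤ) : ((i, 0) : ℤ × ℤ) + Dir.S.vec ∉ domain m h := by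
  rw [mem_domain]; simp only [InV, Dir.vec, Prod.mk_add_mk]; omega

lemma headS_not_mem (hω : ω ⊆ edgesIn (domain m h)) (i : ℤ) : head ((i, 0), Dir.S) ∉ ω := by
  intro hh
  exact below_not_mem i (head_mem_edgesIn.mp (hω hh)).2

lemma mem_bottomArc {i : ℤ} (h1 : a ≤ i) (h2 : i < b) : head ((i, 0), Dir.E) ∈ bottomArc a b := by
  simp only [bottomArc, mem_image, mem_Ico, head, Dir.vec, Prod.mk_add_mk, add_zero]
  exact ⟨i, ⟨h1, h2⟩, rfl⟩

lemma last_corner (hω : ω ⊆ edgesIn (domain m h)) {T : ℕ} (hT : Cyc (nxt ω) (start b) T) :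
    (nxt ω)^[T - 1] (start b) = ((b, 0), Dir.S) := by
  apply nxt_injective ω
  rw [← iterate_succ_apply' (nxt ω), show (T - 1).succ = T by have := hT.pos; omega, hT.ret,
    nxt_not_mem (headS_not_mem hω b)]
  rfl

variable (hω : ω ∈ configs (domain m h) (bottomArc a b))

include ha hab hb hω

lemma orbitV (n : ℕ) : InV m (fun i => (h i : ℤ)) ((nxt ω)^[n] (start b)).1 :=
  mem_domain.mp (orbit_mem (mem_configs.mp hω).1 (src_mem ha hab hb) n)

theorem total_turn {T : ℕ} (hT : Cyc (nxt ω) (start b) T) :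
    tt (nxt ω) (eps ω) (start b) T = 4 := by
  have hl := last_corner (mem_configs.mp hω).1 hT
  have hp := hT.pos
  have h3 := turn_Sl (m := m) (h := fun i => (h i : ℤ)) hT (by omega : T - 1 < T)
    (orbitV ha hab hb hω) hl le_rfl
  have : T = (T - 1) + 1 := by omega
  rw [this, tt_succ, hl, eps_of_not_mem (headS_not_mem (mem_configs.mp hω).1 b)]
  have h3' : tt (nxt ω) (eps ω) (start b) (T - 1) = 3 := h3
  rw [h3']; rfl

lemma bottomS {T : ℕ} (hT : Cyc (nxt ω) (start b) T) (k : ℕ) (hk : (k : ℤ) ≤ b - a) :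
    2 * k + 1 ≤ T ∧ (nxt ω)^[T - 1 - 2 * k] (start b) = ((b - k, 0), Dir.S) := by
  induction k with
  | zero =>
    have hp := hT.pos
    refine ⟨by omega, ?_⟩
    simpa using last_corner (mem_configs.mp hω).1 hT
  | succ k ih =>
    obtain ⟨h1, h2⟩ := ih (by push_cast at hk; omega)
    push_cast at hk
    have n0 : T - 1 - 2 * k ≠ 0 := by
      intro h0
      rw [h0] at h2
      simp [start] at h2
    obtain ⟨n, hn⟩ : ∃ n, T - 1 - 2 * k = n + 1 := ⟨T - 1 - 2 * k - 1, by omega⟩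
    rw [hn, iterate_succ_apply'] at h2
    have hE : (nxt ω)^[n] (start b) = ((b - k - 1, 0), Dir.E) := by
      apply nxt_injective ω
      rw [h2, nxt_mem ((mem_configs.mp hω).2 (mem_bottomArc (by omega) (by omega)))]
      simp [Dir.vec, Dir.rgt]
    have n1 : n ≠ 0 := by
      rintro rfl
      simp only [iterate_zero, id_eq, start, Prod.mk.injEq, and_true] at hE
      omega
    obtain ⟨n', hn'⟩ : ∃ n', n = n' + 1 := ⟨n - 1, by omega⟩
    rw [hn', iterate_succ_apply'] at hE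
    have hS : (nxt ω)^[n'] (start b) = ((b - k - 1, 0), Dir.S) := by
      apply nxt_injective ω
      rw [hE, nxt_not_mem (headS_not_mem (mem_configs.mp hω).1 _)]
      rfl
    refine ⟨by omega, ?_⟩
    rw [show T - 1 - 2 * (k + 1) = n' by omega, hS]
    congr 2
    push_cast; ring

lemma bottomE {T : ℕ} (hT : Cyc (nxt ω) (start b) T) (k : ℕ) (hk : (k : ℤ) ≤ b - a) :
    2 * k + 1 ≤ T ∧ (nxt ω)^[T - 1 - 2 * k + 1] (start b) = ((b - k, 0), Dir.E) := by
  obtain ⟨h1, h2⟩ := bottomS ha hab hb hω hT k hk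
  refine ⟨h1, ?_⟩
  rw [iterate_succ_apply', h2, nxt_not_mem (headS_not_mem (mem_configs.mp hω).1 _)]
  rfl

/-- the corner below a wired edge is visited at total turning 4 -/
lemma visit_E {T : ℕ} (hT : Cyc (nxt ω) (start b) T) {i : ℤ} (h1 : a ≤ i) (h2 : i < b) :
    ∃ n < T, (nxt ω)^[n] (start b) = ((i, 0), Dir.E) ∧ tt (nxt ω) (eps ω) (start b) n = 4 := by
  obtain ⟨k, hk⟩ : ∃ k : ℕ, (k : ℤ) = b - i := ⟨(b - i).toNat, by omega⟩
  obtain ⟨q1, q2⟩ := bottomS ha hab hb hω hT k (by omega)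
  obtain ⟨_, q3⟩ := bottomE ha hab hb hω hT k (by omega)
  have e : b - (k : ℤ) = i := by omega
  rw [e] at q2 q3
  refine ⟨T - 1 - 2 * k + 1, by omega, q3, ?_⟩
  have h3 := turn_Sl (m := m) (h := fun i => (h i : ℤ)) hT (by omega : T - 1 - 2 * k < T)
    (orbitV ha hab hb hω) q2 (by omega)
  rw [tt_succ, q2, eps_of_not_mem (headS_not_mem (mem_configs.mp hω).1 i)]
  have h3' : tt (nxt ω) (eps ω) (start b) (T - 1 - 2 * k) = 3 := h3
  rw [h3']; rfl

/-- the corner above a wired edge, if visited, is visited at total turning 2 -/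
lemma visit_W {T : ℕ} (hT : Cyc (nxt ω) (start b) T) {i : ℤ} (h1 : a ≤ i) (h2 : i < b) {n : ℕ}
    (hn : n < T) (hc : (nxt ω)^[n] (start b) = ((i + 1, 0), Dir.W)) :
    tt (nxt ω) (eps ω) (start b) n = 2 := by
  apply turn_F (m := m) (h := fun i => (h i : ℤ)) hT hn (orbitV ha hab hb hω) hc (by omega)
  intro l hl hS
  obtain ⟨k, hk⟩ : ∃ k : ℕ, (k : ℤ) = b - (i + 1) := ⟨(b - (i + 1)).toNat, by omega⟩
  obtain ⟨q1, q2⟩ := bottomS ha hab hb hω hT k (by omega)
  have e : b - (k : ℤ) = i + 1 := by omega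
  rw [e] at q2
  have hl2 : l = T - 1 - 2 * k := hT.inj (nxt_injective ω) (by omega) (by omega) (hS.trans q2.symm)
  rcases Nat.even_or_odd' (T - 1 - n) with ⟨k', hk' | hk'⟩
  · obtain ⟨p1, p2⟩ := bottomS ha hab hb hω hT k' (by omega)
    rw [show T - 1 - 2 * k' = n by omega, hc] at p2
    simp at p2
  · obtain ⟨p1, p2⟩ := bottomE ha hab hb hω hT (k' + 1) (by push_cast; omega)
    rw [show T - 1 - 2 * (k' + 1) + 1 = n by omega, hc] at p2
    simp at p2

/-- the corner above a wired edge is visited if and only if that edge is a bridge -/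
lemma visit_W_iff {T : ℕ} (hT : Cyc (nxt ω) (start b) T) {i : ℤ} (h1 : a ≤ i) (h2 : i < b) :
    (∃ n < T, (nxt ω)^[n] (start b) = ((i + 1, 0), Dir.W)) ↔
      ¬ (openGraph (ω.erase s((i, 0), (i + 1, 0)))).Reachable (i, 0) (i + 1, 0) := by
  obtain ⟨hωE, hωO⟩ := mem_configs.mp hω
  set A : Corner := ((i, 0), Dir.E) with hA
  have hB : mate A = ((i + 1, 0), Dir.W) := by simp [mate, hA, Dir.vec, Dir.opp]
  have he : s((i, 0), (i + 1, 0)) = head A := by simp [head, hA, Dir.vec]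
  rw [he, ← hB]
  set ω' := ω.erase (head A) with hω'
  have hmem : head A ∈ ω := hωO (mem_bottomArc h1 h2)
  have hω'E : ω' ⊆ edgesIn (domain m h) := (erase_subset _ _).trans hωE
  have hAV : A.1 ∈ domain m h := bottom_mem (by omega) (by omega)
  have hBV : (mate A).1 ∈ domain m h := by rw [hB]; exact bottom_mem (by omega) (by omega)
  obtain ⟨nA, hnA, hvA, _⟩ := visit_E ha hab hb hω hT h1 h2
  obtain ⟨TA, hTA⟩ := exists_cyc hωE hAV
  obtain ⟨TA', hTA'⟩ := exists_cyc hω'E hAV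
  obtain ⟨TB', hTB'⟩ := exists_cyc hω'E hBV
  have hnot : head A ∉ ω' := notMem_erase _ _
  have hnot2 : head (mate A) ∉ ω' := by rw [head_mate]; exact hnot
  have fA : nxt ω A = nxt ω' (mate A) := by
    rw [nxt_mem hmem, nxt_not_mem hnot2, hB]
    simp [hA, Dir.vec, Dir.rgt, Dir.lft]
  have fo : ∀ c, c ≠ A → c ≠ mate A → nxt ω c = nxt ω' c := by
    intro c hc1 hc2
    have hne : head c ≠ head A := by
      intro hh
      rcases (head_eq_iff A c).mp hh.symm with h3 | h3
      · exact hc1 h3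
      · exact hc2 h3
    by_cases hin : head c ∈ ω
    · rw [nxt_mem hin, nxt_mem (mem_erase.mpr ⟨hne, hin⟩)]
    · rw [nxt_not_mem hin, nxt_not_mem (fun h' => hin (mem_of_mem_erase h'))]
  have orbit_iff : (∃ n < T, (nxt ω)^[n] (start b) = mate A) ↔ ∃ n, (nxt ω)^[n] A = mate A := by
    constructor
    · rintro ⟨n, hn, hc⟩
      refine ⟨n + (T - nA), ?_⟩
      have e1 : (nxt ω)^[n + (T - nA)] A = (nxt ω)^[n + (T - nA)] ((nxt ω)^[nA] (start b)) :=
        congrArg _ hvA.symm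
      rw [e1, ← iterate_add_apply, show n + (T - nA) + nA = n + T by omega,
        iterate_add_apply, hT.ret, hc]
    · rintro ⟨n, hc⟩
      refine ⟨(n + nA) % T, Nat.mod_lt _ hT.pos, ?_⟩
      rw [← hT.mod, iterate_add_apply, hvA]
      exact hc
  rw [orbit_iff]
  constructor
  · rintro ⟨n, hn⟩ hr
    obtain ⟨k, hk, hkm⟩ := both_of_reach hω'E hTA' hnot
      (by simpa [hA, Dir.vec] using hr) ⟨0, hTA'.pos, rfl⟩
    have hk0 : 0 < k := by
      rcases Nat.eq_zero_or_pos k with h0 | h0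
      · subst h0; exact absurd hkm (mate_ne A).symm
      · exact h0
    obtain ⟨s1, s2, s3, _, _⟩ := split (e := eps ω') (e' := eps ω) (nxt_injective ω') hTA' fA
      (fun c hc1 hc2 => ⟨fo c hc1 hc2, by
        have hne : head c ≠ head A := by
          intro hh
          rcases (head_eq_iff A c).mp hh.symm with h3 | h3
          · exact hc1 h3
          · exact hc2 h3
        by_cases hin : head c ∈ ω
        · rw [eps_of_mem hin, eps_of_mem (mem_erase.mpr ⟨hne, hin⟩)]
        · rw [eps_of_not_mem hin, eps_of_not_mem (fun h' => hin (mem_of_mem_erase h'))]⟩)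
      (i := 0) (j := k) rfl hkm hk0 hk
    simp only [Nat.sub_zero] at s1 s3
    rw [s1.mod n] at hn
    have hlt := Nat.mod_lt n s1.pos
    rcases Nat.eq_zero_or_pos (n % (TA' - k)) with h0 | h0
    · rw [h0] at hn; exact absurd hn (mate_ne A).symm
    · rw [s3 _ h0 hlt.le] at hn
      have := hTA'.inj (nxt_injective ω') (by omega) hk (hn.trans hkm.symm)
      omega
  · intro hr
    have hB' : ∀ n < TA', (nxt ω')^[n] A ≠ mate A := by
      intro n _ hc
      apply hr
      have := reach_orbit (ω := ω') (c0 := A) n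
      rw [hc, hB] at this
      simpa [hA] using this
    obtain ⟨j, _, hj, _, _⟩ := one_to_both (nxt_injective ω') hTA' hTB' hTA fA fo
      (i := 0) rfl hTA'.pos hB'
    exact ⟨j, hj⟩

end

end Pool.Agent.H95.SumRule
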