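import Mathlib
import Pool.Agent.H95.SumRule.Visits

namespace Pool.Agent.H95.SumRule

open Function Finset

set_option linter.unusedSectionVars false

/-- the period of the start corner -/
noncomputable def per (ω : Finset (Sym2 (ℤ × ℤ))) (b : ℤ) : ℕ := by
  classical
  exact if h : ∃ T, Cyc (nxt ω) (start b) T then h.choose else 0

lemma per_spec {ω : Finset (Sym2 (ℤ × ℤ))} {b : ℤ} (h : ∃ T, Cyc (nxt ω) (start b) T) :
    Cyc (nxt ω) (start b) (per ω b) := by
  classical
  unfold per
  rw [dif_pos h]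
  exact h.choose_spec

noncomputable def GG (φ : ℤ → ℝ) (b : ℤ) (ω : Finset (Sym2 (ℤ × ℤ))) (c : Corner) : ℝ :=
  Gc φ (nxt ω) (eps ω) (start b) (per ω b) c

section
variable {m : ℕ} {h : ℤ → ℕ} {a b : ℤ} {q : ℝ} {φ : ℤ → ℝ}
variable (ha : 0 ≤ a) (hab : a ≤ b) (hb : b ≤ m)
include ha hab hb

lemma per_cyc {ω : Finset (Sym2 (ℤ × ℤ))} (hω : ω ∈ configs (domain m h) (bottomArc a b)) :
    Cyc (nxt ω) (start b) (per ω b) :=
  per_spec (exists_cyc (mem_configs.mp hω).1 (src_mem ha hab hb))

/-- telescoping over one configuration -/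
lemma sum_GG {ω : Finset (Sym2 (ℤ × ℤ))} (hω : ω ∈ configs (domain m h) (bottomArc a b)) :
    ∑ c ∈ cornersOf (domain m h), GG φ b ω c = φ 0 + φ 1 + φ 2 + φ 3 := by
  have hT := per_cyc ha hab hb hω
  unfold GG
  rw [sum_Gc (eps_cases ω) _ (fun n _ => mem_cornersOf.mpr
    (orbit_mem (mem_configs.mp hω).1 (src_mem ha hab hb) n)), total_turn ha hab hb hω hT]
  unfold prim
  rw [Finset.Ico_eq_empty (by norm_num : ¬ (4 : ℤ) < 0)]
  have : Finset.Ico (0 : ℤ) 4 = {0, 1, 2, 3} := by decide
  rw [this]
  simp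
  ring

/-- the local relation at a random tile -/
lemma local_GG (hq : 0 < q) (hφ : ∀ t, φ (t + 1) + φ (t - 1) = √q * φ t)
    {ω : Finset (Sym2 (ℤ × ℤ))} (hω : ω ∈ configs (domain m h) (bottomArc a b)) {A : Corner}
    (hA : head A ∈ edgesIn (domain m h)) (hn : head A ∉ ω) :
    fkWeight (selfDual q) q (domain m h) ω * (GG φ b ω A + GG φ b ω (mate A)) +
    fkWeight (selfDual q) q (domain m h) (insert (head A) ω) *
      (GG φ b (insert (head A) ω) A + GG φ b (insert (head A) ω) (mate A)) = 0 := by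
  obtain ⟨hωE, hωO⟩ := mem_configs.mp hω
  set ω' := insert (head A) ω with hω'def
  have hω' : ω' ∈ configs (domain m h) (bottomArc a b) :=
    mem_configs.mpr ⟨insert_subset hA hωE, hωO.trans (subset_insert _ _)⟩
  obtain ⟨hA1, hA2⟩ := head_mem_edgesIn.mp hA
  have hT := per_cyc ha hab hb hω
  have hT' := per_cyc ha hab hb hω'
  have hmem : head A ∈ ω' := mem_insert_self _ _
  have hmem2 : head (mate A) ∈ ω' := by rw [head_mate]; exact hmem
  have hn2 : head (mate A) ∉ ω := by rw [head_mate]; exact hn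
  have hadj : A.1 ≠ A.1 + A.2.vec := vec_ne _ _
  have hreach : ∀ {c : Corner}, (∃ n < per ω b, (nxt ω)^[n] (start b) = c) →
      (openGraph ω).Reachable (start b).1 c.1 := by
    rintro c ⟨n, _, rfl⟩; exact reach_orbit n
  unfold GG
  apply local_rel (r := √q) hφ (nxt_injective ω) (nxt_injective ω') hT hT'
    (exists_cyc hωE hA1) (exists_cyc hωE hA2) (mate_ne A).symm
  · rw [nxt_mem hmem, nxt_not_mem hn2]
    obtain ⟨⟨x, y⟩, d⟩ := A
    cases d <;> simp [mate, Dir.rgt, Dir.lft, Dir.opp]
  · rw [nxt_mem hmem2, nxt_not_mem hn]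
    obtain ⟨⟨x, y⟩, d⟩ := A
    cases d <;> simp [mate, Dir.rgt, Dir.lft, Dir.opp, Dir.vec]
  · intro c hc1 hc2
    have hne : head c ≠ head A := by
      intro hh
      rcases (head_eq_iff A c).mp hh.symm with h3 | h3
      · exact hc1 h3
      · exact hc2 h3
    by_cases hin : head c ∈ ω
    · rw [nxt_mem hin, nxt_mem (mem_insert_of_mem hin), eps_of_mem hin,
        eps_of_mem (mem_insert_of_mem hin)]
      exact ⟨rfl, rfl⟩
    · have hin' : head c ∉ ω' := by
        intro h'
        rcases mem_insert.mp h' with h4 | h4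
        · exact hne h4
        · exact hin h4
      rw [nxt_not_mem hin, nxt_not_mem hin', eps_of_not_mem hin, eps_of_not_mem hin']
      exact ⟨rfl, rfl⟩
  · exact eps_of_not_mem hn
  · exact eps_of_not_mem hn2
  · exact eps_of_mem hmem
  · exact eps_of_mem hmem2
  · exact total_turn ha hab hb hω hT
  · exact total_turn ha hab hb hω' hT'
  · intro v1 v2
    have hr : (openGraph ω).Reachable A.1 (A.1 + A.2.vec) := (hreach v1).symm.trans (hreach v2)
    exact weight_insert_of_reach hq hadj hn hr
  · intro v1 v2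
    apply weight_insert_of_not_reach hq hadj hA1 hA2 hn
    intro hr
    obtain ⟨n, hn', hc⟩ := both_of_reach hωE hT hn hr v1
    exact v2 n hn' hc
  · intro v1 v2
    apply weight_insert_of_not_reach hq hadj hA1 hA2 hn
    intro hr
    have hm1 : (mate A).1 = A.1 + A.2.vec := rfl
    have hm2 : (mate A).1 + (mate A).2.vec = A.1 := by
      obtain ⟨⟨x, y⟩, d⟩ := A
      cases d <;> simp [mate, Dir.opp, Dir.vec]
    obtain ⟨n, hn', hc⟩ := both_of_reach hωE hT hn2 (by rw [hm2, hm1]; exact hr.symm) v1
    rw [mate_mate] at hc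
    exact v2 n hn' hc

/-- the expected contribution of a random tile vanishes -/
lemma sum_tile (hq : 0 < q) (hφ : ∀ t, φ (t + 1) + φ (t - 1) = √q * φ t) {A : Corner}
    (hA : head A ∈ edgesIn (domain m h)) (hO : head A ∉ bottomArc a b) :
    ∑ ω ∈ configs (domain m h) (bottomArc a b),
      fkWeight (selfDual q) q (domain m h) ω * (GG φ b ω A + GG φ b ω (mate A)) = 0 := by
  classical
  apply sum_involution (fun ω _ => if head A ∈ ω then ω.erase (head A) else insert (head A) ω)
  · intro ω hω
    by_cases hin : head A ∈ ω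
    · rw [if_pos hin]
      have hω2 : ω.erase (head A) ∈ configs (domain m h) (bottomArc a b) := by
        obtain ⟨h1, h2⟩ := mem_configs.mp hω
        refine mem_configs.mpr ⟨(erase_subset _ _).trans h1, ?_⟩
        intro e he
        exact mem_erase.mpr ⟨fun h' => hO (h' ▸ he), h2 he⟩
      have := local_GG ha hab hb hq hφ hω2 hA (notMem_erase _ _)
      rw [insert_erase hin] at this
      linarith
    · rw [if_neg hin]
      exact local_GG ha hab hb hq hφ hω hA hin
  · intro ω hω _
    by_cases hin : head A ∈ ω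
    · rw [if_pos hin]
      intro h'
      have : head A ∈ ω.erase (head A) := by rw [h']; exact hin
      exact notMem_erase _ _ this
    · rw [if_neg hin]
      intro h'
      apply hin
      rw [← h']; exact mem_insert_self _ _
  · intro ω hω
    by_cases hin : head A ∈ ω
    · simp only [if_pos hin, if_neg (notMem_erase _ _)]
      exact insert_erase hin
    · simp only [if_neg hin, if_pos (mem_insert_self _ _)]
      exact erase_insert hin
  · intro ω hω
    by_cases hin : head A ∈ ω
    · simp only [if_pos hin]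
      obtain ⟨h1, h2⟩ := mem_configs.mp hω
      refine mem_configs.mpr ⟨(erase_subset _ _).trans h1, ?_⟩
      intro e he
      exact mem_erase.mpr ⟨fun h' => hO (h' ▸ he), h2 he⟩
    · simp only [if_neg hin]
      obtain ⟨h1, h2⟩ := mem_configs.mp hω
      exact mem_configs.mpr ⟨insert_subset hA h1, h2.trans (subset_insert _ _)⟩

lemma sum_random (hq : 0 < q) (hφ : ∀ t, φ (t + 1) + φ (t - 1) = √q * φ t) :
    ∑ c ∈ (cornersOf (domain m h)).filter
        (fun c => head c ∈ edgesIn (domain m h) ∧ head c ∉ bottomArc a b),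
      ∑ ω ∈ configs (domain m h) (bottomArc a b),
        fkWeight (selfDual q) q (domain m h) ω * GG φ b ω c = 0 := by
  apply sum_involution (fun c _ => mate c)
  · intro c hc
    rw [mem_filter] at hc
    rw [← sum_add_distrib, ← sum_tile ha hab hb hq hφ hc.2.1 hc.2.2]
    apply sum_congr rfl
    intro ω _
    ring
  · intro c _ _
    exact mate_ne c
  · intro c hc
    rw [mem_filter] at hc ⊢
    rw [head_mate]
    exact ⟨mem_cornersOf.mpr (head_mem_edgesIn.mp hc.2.1).2, hc.2⟩
  · intro c _
    exact mate_mate c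

end

end Pool.Agent.H95.SumRule
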