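import Mathlib
import Pool.Agent.H95.SumRule.Rel

namespace Pool.Agent.H95.SumRule

open Function Finset

set_option linter.unusedSectionVars false

section
variable {m : ℕ} {h : ℤ → ℕ} {a b : ℤ} {q : ℝ} {φ : ℤ → ℝ}
variable (ha : 0 ≤ a) (hab : a ≤ b) (hb : b ≤ m)

/-- value of a slot -/
def val (φ : ℤ → ℝ) (b : ℤ) (c : Corner) : ℝ :=
  match c.2 with
  | Dir.E => φ 0
  | Dir.N => φ 1
  | Dir.W => φ 2
  | Dir.S => if c.1.1 ≤ b then φ 3 else φ (-1)

include ha hab hb

open Classical in
lemma GG_slot {ω : Finset (Sym2 (ℤ × ℤ))} (hω : ω ∈ configs (domain m h) (bottomArc a b))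
    {c : Corner} (hc : c.1 ∈ domain m h) (hc2 : c.1 + c.2.vec ∉ domain m h) :
    GG φ b ω c = if (openGraph ω).Reachable (b, 0) c.1 then val φ b c else 0 := by
  have hT := per_cyc ha hab hb hω
  obtain ⟨hωE, hωO⟩ := mem_configs.mp hω
  have hh : head c ∉ ω := fun h' => hc2 (head_mem_edgesIn.mp (hωE h')).2
  by_cases hr : (openGraph ω).Reachable (b, 0) c.1
  · rw [if_pos hr]
    obtain ⟨n, hn, hv⟩ := slot_visited hωE (outConn_domain m h) (s := (b, 0)) hT
      (src_mem ha hab hb) (below_not_mem b) hc2 hr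
    unfold GG
    rw [Gc_eq (nxt_injective ω) hT hn hv, if_pos (eps_of_not_mem hh)]
    have hV := orbitV ha hab hb hω
    obtain ⟨x, d⟩ := c
    cases d
    · have := turn_E (m := m) (h := fun i => (h i : ℤ)) hT hn hV hv (by
        rw [← mem_domain]
        have e : x + Dir.E.vec = (x.1 + 1, x.2) := by
          ext <;> simp [Dir.vec]
        rw [← e]; exact hc2)
      have h2 : tt (nxt ω) (eps ω) (start b) n = 0 := this
      rw [h2]; rfl
    · have := turn_N (m := m) (h := fun i => (h i : ℤ)) hT hn hV hv (by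
        rw [← mem_domain]
        have e : x + Dir.N.vec = (x.1, x.2 + 1) := by
          ext <;> simp [Dir.vec]
        rw [← e]; exact hc2)
      have h2 : tt (nxt ω) (eps ω) (start b) n = 1 := this
      rw [h2]; rfl
    · have := turn_W (m := m) (h := fun i => (h i : ℤ)) hT hn hV hv (by
        rw [← mem_domain]
        have e : x + Dir.W.vec = (x.1 - 1, x.2) := by
          ext <;> simp [Dir.vec, sub_eq_add_neg]
        rw [← e]; exact hc2)
      have h2 : tt (nxt ω) (eps ω) (start b) n = 2 := this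
      rw [h2]; rfl
    · have hx2 : x.2 = 0 := by
        rw [mem_domain] at hc hc2
        simp only [InV, Dir.vec, Prod.fst_add, Prod.snd_add, add_zero] at hc hc2
        omega
      obtain ⟨i, j⟩ := x
      simp only at hx2
      subst hx2
      by_cases hi : i ≤ b
      · have h2 : tt (nxt ω) (eps ω) (start b) n = 3 :=
          turn_Sl (m := m) (h := fun i => (h i : ℤ)) hT hn hV hv hi
        rw [h2]; simp [val, hi]
      · have h2 : tt (nxt ω) (eps ω) (start b) n = -1 :=
          turn_Sr (m := m) (h := fun i => (h i : ℤ)) hT hn hV hv (by omega)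
        rw [h2]; simp [val, hi]
  · rw [if_neg hr]
    unfold GG
    apply Gc_eq_zero
    intro n _ hcc
    apply hr
    have := reach_orbit (ω := ω) (c0 := start b) n
    rw [hcc] at this
    exact this

lemma GG_E {ω : Finset (Sym2 (ℤ × ℤ))} (hω : ω ∈ configs (domain m h) (bottomArc a b))
    {i : ℤ} (h1 : a ≤ i) (h2 : i < b) : GG φ b ω ((i, 0), Dir.E) = - φ 3 := by
  have hT := per_cyc ha hab hb hω
  obtain ⟨n, hn, hv, ht⟩ := visit_E ha hab hb hω hT h1 h2
  unfold GG
  rw [Gc_eq (nxt_injective ω) hT hn hv, if_neg, ht]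
  · norm_num
  · rw [eps_of_mem ((mem_configs.mp hω).2 (mem_bottomArc h1 h2))]; norm_num

open Classical in
lemma GG_W {ω : Finset (Sym2 (ℤ × ℤ))} (hω : ω ∈ configs (domain m h) (bottomArc a b))
    {i : ℤ} (h1 : a ≤ i) (h2 : i < b) : GG φ b ω ((i + 1, 0), Dir.W) =
      if ¬ (openGraph (ω.erase s((i, 0), (i + 1, 0)))).Reachable (i, 0) (i + 1, 0)
      then - φ 1 else 0 := by
  have hT := per_cyc ha hab hb hω
  have hiff := visit_W_iff ha hab hb hω hT h1 h2
  by_cases hv : ∃ n < per ω b, (nxt ω)^[n] (start b) = ((i + 1, 0), Dir.W)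
  · rw [if_pos (hiff.mp hv)]
    obtain ⟨n, hn, hc⟩ := hv
    unfold GG
    rw [Gc_eq (nxt_injective ω) hT hn hc, if_neg, visit_W ha hab hb hω hT h1 h2 hn hc]
    · norm_num
    · have : head ((i + 1, 0), Dir.W) ∈ ω := by
        have h3 := (mem_configs.mp hω).2 (mem_bottomArc h1 h2)
        have h4 : mate ((i, 0), Dir.E) = ((i + 1, 0), Dir.W) := by simp [mate, Dir.vec, Dir.opp]
        rw [← h4, head_mate]; exact h3
      rw [eps_of_mem this]; norm_num
  · rw [if_neg (fun h' => hv (hiff.mpr h'))]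
    push Not at hv
    exact Gc_eq_zero hv

lemma wired_reach {ω : Finset (Sym2 (ℤ × ℤ))} (hω : ω ∈ configs (domain m h) (bottomArc a b))
    {i : ℤ} (h1 : a ≤ i) (h2 : i ≤ b) : (openGraph ω).Reachable (b, 0) (i, 0) := by
  obtain ⟨k, hk⟩ : ∃ k : ℕ, i = b - k := ⟨(b - i).toNat, by omega⟩
  subst hk
  clear h2
  induction k with
  | zero => simp
  | succ k ih =>
    push_cast at h1
    refine (ih (by omega)).trans (SimpleGraph.Reachable.symm (SimpleGraph.Adj.reachable ?_))
    rw [openGraph_adj]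
    refine ⟨(mem_configs.mp hω).2 ?_, by simp⟩
    have := mem_bottomArc (a := a) (b := b) (i := b - (k + 1)) (by omega) (by omega)
    simp only [head, Dir.vec, Prod.mk_add_mk, add_zero] at this
    push_cast
    rwa [show b - ((k : ℤ) + 1) + 1 = b - k by ring] at this

end

lemma top_filter (m : ℕ) (h : ℤ → ℕ) :
    (domain m h).filter (fun v => v + Dir.N.vec ∉ domain m h)
      = (Icc (0 : ℤ) m).image (fun i => (i, (h i : ℤ))) := by
  ext ⟨i, j⟩
  simp only [mem_filter, mem_domain, InV, Dir.vec, Prod.mk_add_mk, add_zero, mem_image, mem_Icc,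
    Prod.mk.injEq]
  constructor
  · rintro ⟨h1, h2⟩
    exact ⟨i, by omega, rfl, by omega⟩
  · rintro ⟨i', h1, rfl, h2⟩
    omega

lemma bot_filter (m : ℕ) (h : ℤ → ℕ) :
    (domain m h).filter (fun v => v + Dir.S.vec ∉ domain m h)
      = (Icc (0 : ℤ) m).image (fun i => (i, (0 : ℤ))) := by
  ext ⟨i, j⟩
  simp only [mem_filter, mem_domain, InV, Dir.vec, Prod.mk_add_mk, add_zero, mem_image, mem_Icc,
    Prod.mk.injEq]
  constructor
  · rintro ⟨h1, h2⟩
    exact ⟨i, by omega, rfl, by omega⟩
  · rintro ⟨i', h1, rfl, h2⟩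
    omega

lemma sum_corners (V : Finset (ℤ × ℤ)) (g : Corner → ℝ) :
    ∑ c ∈ cornersOf V, g c = ∑ v ∈ V, (g (v, Dir.E) + g (v, Dir.N) + g (v, Dir.W) + g (v, Dir.S)) := by
  unfold cornersOf
  rw [sum_product]
  apply sum_congr rfl
  intro v _
  rw [sum_insert (by simp), sum_insert (by simp), sum_insert (by simp), sum_singleton]
  ring

noncomputable def phi (q : ℝ) (t : ℤ) : ℝ := (Polynomial.Chebyshev.U ℝ (1 - t)).eval (√q / 2)

lemma phi_rec (q : ℝ) (t : ℤ) : phi q (t + 1) + phi q (t - 1) = √q * phi q t := by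
  unfold phi
  have := Polynomial.Chebyshev.U_add_two ℝ (-t)
  rw [show 1 - (t + 1) = -t by ring, show 1 - (t - 1) = -t + 2 by ring, this,
    show -t + 1 = 1 - t by ring, Polynomial.eval_sub, Polynomial.eval_mul, Polynomial.eval_mul,
    Polynomial.eval_X, Polynomial.eval_ofNat]
  ring

lemma phi_vals {q : ℝ} (hq : 0 < q) : phi q 2 = 0 ∧ phi q 1 = 1 ∧ phi q 0 = √q ∧
    phi q (-1) = q - 1 ∧ phi q 3 = -1 := by
  have h2 : phi q 2 = 0 := by
    unfold phi; rw [show (1 : ℤ) - 2 = -1 by norm_num, Polynomial.Chebyshev.U_neg_one]; simp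
  have h1 : phi q 1 = 1 := by
    unfold phi; rw [show (1 : ℤ) - 1 = 0 by norm_num, Polynomial.Chebyshev.U_zero]; simp
  have r1 := phi_rec q 1
  have r0 := phi_rec q 0
  have r2 := phi_rec q 2
  norm_num at r1 r0 r2
  rw [h2, h1] at r1
  have h0 : phi q 0 = √q := by linarith
  rw [h1, h0] at r0
  rw [h1, h2] at r2
  have hs : √q * √q = q := Real.mul_self_sqrt hq.le
  exact ⟨h2, h1, h0, by linarith, by linarith⟩

open Classical in
theorem sum_rule (q : ℝ) (hq : 0 < q) (m : ℕ) (h : ℤ → ℕ) (a b : ℤ) (ha : 0 ≤ a) (hab : a ≤ b)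
    (hb : b ≤ m) :
    let V := domain m h
    let P := fkProb (selfDual q) q V (bottomArc a b)
    let touch := fun x : ℤ × ℤ => P fun ω => (openGraph ω).Reachable (b, 0) x
    ∑ i ∈ Icc (0 : ℤ) m, touch (i, h i)
      + √q * ∑ v ∈ V.filter (fun v => v + (1, 0) ∉ V), touch v
      + (q - 1) * ∑ i ∈ Ioc b (m : ℤ), touch (i, 0)
      = 1 + √q + ∑ i ∈ Ico (0 : ℤ) a, touch (i, 0)
        + ∑ i ∈ Ico a b, P fun ω =>
            ¬ (openGraph (ω.erase s((i, 0), (i + 1, 0)))).Reachable (i, 0) (i + 1, 0) := by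
  intro V P touch
  obtain ⟨p2, p1, p0, pm, p3⟩ := phi_vals hq
  set w : Finset (Sym2 (ℤ × ℤ)) → ℝ := fun ω => fkWeight (selfDual q) q V ω with hw
  set C := configs V (bottomArc a b) with hC
  set Z : ℝ := ∑ ω ∈ C, w ω with hZ
  have hCne : (edgesIn V) ∈ C := by
    rw [hC, mem_configs]
    refine ⟨Finset.Subset.refl _, ?_⟩
    intro e he
    simp only [bottomArc, mem_image, mem_Ico] at he
    obtain ⟨i, hi, rfl⟩ := he
    have : head ((i, 0), Dir.E) ∈ edgesIn V := by
      rw [head_mem_edgesIn]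
      refine ⟨bottom_mem (by omega) (by omega), ?_⟩
      simp only [Dir.vec, Prod.mk_add_mk, add_zero]
      exact bottom_mem (by omega) (by omega)
    simpa [head, Dir.vec] using this
  have hZpos : 0 < Z := sum_pos (fun ω _ => weight_pos hq) ⟨_, hCne⟩
  have hP : ∀ A : Finset (Sym2 (ℤ × ℤ)) → Prop, Z * P A = ∑ ω ∈ C, w ω * (if A ω then 1 else 0) := by
    intro A
    simp only [P, fkProb]
    rw [mul_div_assoc', mul_comm Z, mul_div_assoc]
    have : Z / ∑ ω ∈ configs V (bottomArc a b), fkWeight (selfDual q) q V ω = 1 :=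
      div_self hZpos.ne'
    rw [this, mul_one, sum_filter]
    apply sum_congr rfl
    intro ω _
    split_ifs <;> simp [hw]
  -- F
  set F : Corner → ℝ := fun c => ∑ ω ∈ C, w ω * GG (phi q) b ω c with hF
  have tot : ∑ c ∈ cornersOf V, F c = Z * √q := by
    rw [hF]
    simp only
    rw [sum_comm]
    have : ∀ ω ∈ C, ∑ c ∈ cornersOf V, w ω * GG (phi q) b ω c = w ω * √q := by
      intro ω hω
      rw [← mul_sum, sum_GG ha hab hb hω, p0, p1, p2, p3]
      ring
    rw [sum_congr rfl this, ← sum_mul]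
  have rnd := sum_random (h := h) ha hab hb hq (phi_rec q)
  have rnd' : ∑ c ∈ (cornersOf V).filter (fun c => head c ∈ edgesIn V ∧ head c ∉ bottomArc a b),
      F c = 0 := rnd
  rw [← sum_filter_add_sum_filter_not (cornersOf V)
    (fun c => head c ∈ edgesIn V ∧ head c ∉ bottomArc a b), rnd', zero_add] at tot
  rw [← sum_filter_add_sum_filter_not _ (fun c => head c ∈ bottomArc a b)] at tot
  -- the wired arc part
  have arcPart : ∑ c ∈ ((cornersOf V).filter
      (fun c => ¬ (head c ∈ edgesIn V ∧ head c ∉ bottomArc a b))).filter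
        (fun c => head c ∈ bottomArc a b), F c
      = Z * ((b - a : ℤ) : ℝ) - Z * ∑ i ∈ Ico a b, P fun ω =>
            ¬ (openGraph (ω.erase s((i, 0), (i + 1, 0)))).Reachable (i, 0) (i + 1, 0) := by
    have hset : ((cornersOf V).filter
      (fun c => ¬ (head c ∈ edgesIn V ∧ head c ∉ bottomArc a b))).filter
        (fun c => head c ∈ bottomArc a b)
        = (Ico a b).image (fun i => (((i, 0), Dir.E) : Corner)) ∪
          (Ico a b).image (fun i => (((i + 1, 0), Dir.W) : Corner)) := by
      ext c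
      simp only [mem_filter, mem_union, mem_image, mem_Ico, mem_cornersOf]
      have hhead : ∀ i : ℤ, (s((i, 0), (i + 1, 0)) : Sym2 (ℤ × ℤ)) = head ((i, 0), Dir.E) := by
        intro i; simp [head, Dir.vec]
      have hmate : ∀ i : ℤ, mate ((i, 0), Dir.E) = ((i + 1, 0), Dir.W) := by
        intro i; simp [mate, Dir.vec, Dir.opp]
      constructor
      · rintro ⟨_, hc⟩
        simp only [bottomArc, mem_image, mem_Ico] at hc
        obtain ⟨i, hi, he⟩ := hc
        rw [hhead] at he
        rcases (head_eq_iff _ _).mp he with h3 | h3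
        · left; exact ⟨i, hi, h3.symm⟩
        · right; exact ⟨i, hi, by rw [h3, hmate]⟩
      · rintro (⟨i, hi, rfl⟩ | ⟨i, hi, rfl⟩)
        · have := mem_bottomArc (a := a) (b := b) hi.1 hi.2
          exact ⟨⟨bottom_mem (by omega) (by omega), fun h' => h'.2 this⟩, this⟩
        · have := mem_bottomArc (a := a) (b := b) hi.1 hi.2
          rw [← head_mate, hmate] at this
          exact ⟨⟨bottom_mem (by omega) (by omega), fun h' => h'.2 this⟩, this⟩
    rw [hset, sum_union, sum_image, sum_image]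
    · have e1 : ∀ i ∈ Ico a b, F ((i, 0), Dir.E) = Z := by
        intro i hi
        rw [mem_Ico] at hi
        rw [hF]; simp only
        rw [hZ]
        apply sum_congr rfl
        intro ω hω
        rw [GG_E ha hab hb hω hi.1 hi.2, p3]; ring
      have e2 : ∀ i ∈ Ico a b, F ((i + 1, 0), Dir.W) = - (Z * P fun ω =>
            ¬ (openGraph (ω.erase s((i, 0), (i + 1, 0)))).Reachable (i, 0) (i + 1, 0)) := by
        intro i hi
        rw [mem_Ico] at hi
        rw [hP, hF, ← sum_neg_distrib]; simp only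
        apply sum_congr rfl
        intro ω hω
        rw [GG_W ha hab hb hω hi.1 hi.2, p1]
        split_ifs <;> ring
      rw [sum_congr rfl e1, sum_congr rfl e2, sum_const, sum_neg_distrib, ← mul_sum, Int.card_Ico,
        nsmul_eq_mul]
      have : (((b - a).toNat : ℕ) : ℝ) = ((b - a : ℤ) : ℝ) := by
        have : (((b - a).toNat : ℕ) : ℤ) = b - a := by omega
        exact_mod_cast this
      rw [this]; ring
    · intro i _ j _ hij
      simp only [Prod.mk.injEq, and_true] at hij
      omega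
    · intro i _ j _ hij
      simp only [Prod.mk.injEq, and_true] at hij
      exact hij
    · rw [disjoint_left]
      intro c h1 h2
      simp only [mem_image] at h1 h2
      obtain ⟨i, _, rfl⟩ := h1
      obtain ⟨j, _, hj⟩ := h2
      simp at hj
  -- the slots
  have slotPart : ∑ c ∈ ((cornersOf V).filter
      (fun c => ¬ (head c ∈ edgesIn V ∧ head c ∉ bottomArc a b))).filter
        (fun c => ¬ head c ∈ bottomArc a b), F c
      = Z * (√q * ∑ v ∈ V.filter (fun v => v + (1, 0) ∉ V), touch v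
        + ∑ i ∈ Icc (0 : ℤ) m, touch (i, h i)
        + ∑ i ∈ Icc (0 : ℤ) m, (if i ≤ b then -1 else (q - 1)) * touch (i, 0)) := by
    have hset : ((cornersOf V).filter
      (fun c => ¬ (head c ∈ edgesIn V ∧ head c ∉ bottomArc a b))).filter
        (fun c => ¬ head c ∈ bottomArc a b)
        = (cornersOf V).filter (fun c => c.1 + c.2.vec ∉ V) := by
      ext c
      simp only [mem_filter, mem_cornersOf]
      constructor
      · rintro ⟨⟨h1, h2⟩, h3⟩
        refine ⟨h1, fun h4 => h2 ⟨head_mem_edgesIn.mpr ⟨h1, h4⟩, h3⟩⟩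
      · rintro ⟨h1, h2⟩
        have hnE : head c ∉ edgesIn V := fun h' => h2 (head_mem_edgesIn.mp h').2
        refine ⟨⟨h1, fun h' => hnE h'.1⟩, fun h' => hnE ?_⟩
        exact ((mem_configs.mp hCne).2) h'
    have hFs : ∀ c ∈ (cornersOf V).filter (fun c => c.1 + c.2.vec ∉ V),
        F c = Z * (val (phi q) b c * touch c.1) := by
      intro c hc
      rw [mem_filter, mem_cornersOf] at hc
      have : Z * (val (phi q) b c * touch c.1) = val (phi q) b c * (Z * touch c.1) := by ring
      rw [this]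
      simp only [touch]
      rw [hP, mul_sum, hF]
      simp only
      apply sum_congr rfl
      intro ω hω
      rw [GG_slot ha hab hb hω hc.1 hc.2]
      split_ifs <;> ring
    rw [hset, sum_congr rfl hFs, ← mul_sum, sum_filter, sum_corners]
    congr 1
    rw [sum_add_distrib, sum_add_distrib, sum_add_distrib]
    have vE : ∀ v, val (phi q) b (v, Dir.E) = √q := fun v => p0
    have vN : ∀ v, val (phi q) b (v, Dir.N) = 1 := fun v => p1
    have vW : ∀ v, val (phi q) b (v, Dir.W) = 0 := fun v => p2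
    have vS : ∀ v : ℤ × ℤ, val (phi q) b (v, Dir.S) = if v.1 ≤ b then -1 else (q - 1) := by
      intro v
      simp only [val, p3, pm]
    simp only [vE, vN, vW, vS, zero_mul, one_mul, ite_self, sum_const_zero, add_zero]
    rw [← sum_filter, ← sum_filter, ← sum_filter, top_filter, bot_filter, sum_image, sum_image,
      ← mul_sum]
    · rfl
    · intro i _ j _ hij
      exact congrArg Prod.fst hij
    · intro i _ j _ hij
      exact congrArg Prod.fst hij
  rw [arcPart, slotPart] at tot
  -- split of the bottom row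
  have touch1 : ∀ i ∈ Icc a b, touch (i, 0) = 1 := by
    intro i hi
    rw [mem_Icc] at hi
    have h1 := hP (fun ω => (openGraph ω).Reachable (b, 0) (i, 0))
    have h2 : ∑ ω ∈ C, w ω * (if (openGraph ω).Reachable (b, 0) (i, 0) then (1:ℝ) else 0) = Z := by
      rw [hZ]
      apply sum_congr rfl
      intro ω hω
      rw [if_pos (wired_reach ha hab hb hω hi.1 hi.2), mul_one]
    rw [h2] at h1
    have : Z * touch (i, 0) = Z * 1 := by rw [mul_one]; exact h1
    exact mul_left_cancel₀ hZpos.ne' this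
  have rowSplit : ∑ i ∈ Icc (0 : ℤ) m, (if i ≤ b then -1 else (q - 1)) * touch (i, 0)
      = - ∑ i ∈ Ico (0 : ℤ) a, touch (i, 0) - (((b - a : ℤ) : ℝ) + 1)
        + (q - 1) * ∑ i ∈ Ioc b (m : ℤ), touch (i, 0) := by
    have u1 : Icc (0 : ℤ) m = (Ico 0 a ∪ Icc a b) ∪ Ioc b (m : ℤ) := by
      ext i; simp only [mem_union, mem_Icc, mem_Ico, mem_Ioc]; omega
    rw [u1, sum_union, sum_union]
    · have s1 : ∑ i ∈ Ico (0 : ℤ) a, (if i ≤ b then -1 else (q - 1)) * touch (i, 0)
          = - ∑ i ∈ Ico (0 : ℤ) a, touch (i, 0) := by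
        rw [← sum_neg_distrib]
        apply sum_congr rfl
        intro i hi
        rw [mem_Ico] at hi
        rw [if_pos (by omega)]; ring
      have s2 : ∑ i ∈ Icc a b, (if i ≤ b then -1 else (q - 1)) * touch (i, 0)
          = - (((b - a : ℤ) : ℝ) + 1) := by
        have : ∀ i ∈ Icc a b, (if i ≤ b then -1 else (q - 1)) * touch (i, 0) = (-1 : ℝ) := by
          intro i hi
          rw [touch1 i hi]
          rw [mem_Icc] at hi
          rw [if_pos hi.2]; ring
        rw [sum_congr rfl this, sum_const, Int.card_Icc, nsmul_eq_mul]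
        have e : (((b + 1 - a).toNat : ℕ) : ℝ) = ((b - a : ℤ) : ℝ) + 1 := by
          have : (((b + 1 - a).toNat : ℕ) : ℤ) = b - a + 1 := by omega
          exact_mod_cast this
        rw [e]; ring
      have s3 : ∑ i ∈ Ioc b (m : ℤ), (if i ≤ b then -1 else (q - 1)) * touch (i, 0)
          = (q - 1) * ∑ i ∈ Ioc b (m : ℤ), touch (i, 0) := by
        rw [mul_sum]
        apply sum_congr rfl
        intro i hi
        rw [mem_Ioc] at hi
        rw [if_neg (by omega)]
      rw [s1, s2, s3]; ring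
    · rw [disjoint_left]; intro i h1 h2
      simp only [mem_Icc, mem_Ico] at h1 h2; omega
    · rw [disjoint_left]; intro i h1 h2
      simp only [mem_union, mem_Icc, mem_Ico, mem_Ioc] at h1 h2; omega
  rw [rowSplit, ← mul_sub, ← mul_add] at tot
  have := mul_left_cancel₀ hZpos.ne' tot
  linarith

end Pool.Agent.H95.SumRule
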