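import Mathlib
import Pool.Agent.H95.SumRule.Defs
import Pool.Agent.H95.SumRule.Main

namespace Pool.Agent.H95.SumRule

open Finset

theorem sum_rule_main (q : ℝ) (hq : 0 < q) (m : ℕ) (h : ℤ → ℕ) (a b : ℤ) (ha : 0 ≤ a)
    (hab : a ≤ b) (hb : b ≤ m) :
    ∑ i ∈ Icc (0 : ℤ) m, touchProb q m h a b (i, h i)
      + √q * ∑ v ∈ domain m h with v + (1, 0) ∉ domain m h, touchProb q m h a b v
      + (q - 1) * ∑ i ∈ Ioc b (m : ℤ), touchProb q m h a b (i, 0)
      = 1 + √q + ∑ i ∈ Ico (0 : ℤ) a, touchProb q m h a b (i, 0)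
        + ∑ i ∈ Ico a b, bridgeProb q m h a b i := by
  classical
  have := sum_rule q hq m h a b ha hab hb
  simp only [touchProb, bridgeProb]
  simp only at this
  convert this

end Pool.Agent.H95.SumRule
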